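import Pool.Agent.V11322.FE.Ev
import Pool.Agent.V11322.SA.Walks

/-!
# Good labels: the tree percolates, and its blocks are surrounded by few edges
-/

namespace Pool.Agent.V11322.FE

open Filter
open Pool.Agent.V11322.SA (opn opn_adj opn_le)

variable {d : ℕ}

lemma exists_isMin [NeZero d] (l : Fin d → ℕ) : ∃ i, IsMin l i := by
  obtain ⟨i, _, hi⟩ := Finset.exists_min_image Finset.univ
    (fun i : Fin d => toLex (l i, i)) ⟨0, Finset.mem_univ _⟩
  refine ⟨i, fun j => ?_⟩
  have := hi j (Finset.mem_univ j)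
  rw [Prod.Lex.toLex_le_toLex] at this
  exact this

lemma IsMin.le {l : Fin d → ℕ} {i : Fin d} (h : IsMin l i) (j : Fin d) : l i ≤ l j := by
  rcases h j with h1 | h1
  · exact h1.le
  · exact h1.1.le

/-- At most one label is smaller than `m`. -/
def AO (m : ℕ) (l : Fin d → ℕ) : Prop := ∀ i j, i ≠ j → m ≤ l i ∨ m ≤ l j

lemma lab_ne (L : Ix d → ℕ) (x : Fin d → ℤ) {i j : Fin d} (h : j ≠ i) :
    lab L (x + ev i) j = lab L x j := by
  unfold lab
  rw [Pi.add_apply, ev_ne h, add_zero]

lemma AO.step {L : Ix d → ℕ} {m : ℕ} {x : Fin d → ℤ} {i : Fin d} (h : AO m (lab L x))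
    (hi : IsMin (lab L x) i) : AO m (lab L (x + ev i)) := by
  have key : ∀ j, j ≠ i → m ≤ lab L x j := by
    intro j hj
    rcases h i j (Ne.symm hj) with h1 | h1
    · exact h1.trans (hi.le j)
    · exact h1
  intro j j' hjj
  by_cases hj : j = i
  · right
    rw [lab_ne L x (fun h' => hjj (hj.trans h'.symm))]
    exact key j' (fun h' => hjj (hj.trans h'.symm))
  · left
    rw [lab_ne L x hj]
    exact key j hj

lemma AO.mono {m m' : ℕ} {l : Fin d → ℕ} (h : AO m l) (hm : m' ≤ m) : AO m' l := fun i j hij =>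
  (h i j hij).imp hm.trans hm.trans

lemma two_ne (hd : 2 ≤ d) : (⟨0, by omega⟩ : Fin d) ≠ ⟨1, by omega⟩ := by
  intro h
  have := congrArg Fin.val h
  simp at this

lemma AO.le_sup (hd : 2 ≤ d) {m : ℕ} {l : Fin d → ℕ} (h : AO m l) : m ≤ Finset.univ.sup l := by
  rcases h _ _ (two_ne hd) with h1 | h1
  · exact h1.trans (Finset.le_sup (Finset.mem_univ _))
  · exact h1.trans (Finset.le_sup (Finset.mem_univ _))

/-- The upper corner of the block of `x`. -/
def IsCor (L : Ix d → ℕ) (m : ℕ) (x c : Fin d → ℤ) : Prop :=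
  ∀ i, x i ≤ c i ∧ m ≤ L (.inl (i, c i)) ∧ ∀ k, x i ≤ k → k < c i → L (.inl (i, k)) < m

/-- The hyperplanes below the block of `x`. -/
def IsPre (L : Ix d → ℕ) (m : ℕ) (x p : Fin d → ℤ) : Prop :=
  ∀ i, p i < x i ∧ m ≤ L (.inl (i, p i)) ∧ ∀ k, p i < k → k < x i → L (.inl (i, k)) < m

lemma exists_cor {L : Ix d → ℕ} (hL : Good L) (m : ℕ) (x : Fin d → ℤ) : ∃ c, IsCor L m x c := by
  have h1 : ∀ i, ∃ c : ℤ, x i ≤ c ∧ m ≤ L (.inl (i, c)) ∧
      ∀ k, x i ≤ k → k < c → L (.inl (i, k)) < m := by
    intro i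
    obtain ⟨n, hn, hn2⟩ := ((hL.1 i).and (eventually_ge_atTop (max m (x i).toNat))).exists
    obtain ⟨⟨k, hk1, _, hk3⟩, _⟩ := hn
    have hm : m ≤ n := (le_max_left _ _).trans hn2
    have hx : (x i).toNat ≤ n := (le_max_right _ _).trans hn2
    obtain ⟨c, hc1, hc2⟩ := Int.exists_least_of_bdd
      (P := fun k => x i ≤ k ∧ m ≤ L (.inl (i, k))) ⟨x i, fun z hz => hz.1⟩
      ⟨k, by omega, hm.trans hk3⟩
    refine ⟨c, hc1.1, hc1.2, fun k' h1 h2 => ?_⟩
    by_contra h3
    have := hc2 k' ⟨h1, by omega⟩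
    omega
  choose c hc using h1
  exact ⟨c, hc⟩

lemma exists_pre {L : Ix d → ℕ} (hL : Good L) (m : ℕ) (x : Fin d → ℤ) : ∃ p, IsPre L m x p := by
  have h1 : ∀ i, ∃ p : ℤ, p < x i ∧ m ≤ L (.inl (i, p)) ∧
      ∀ k, p < k → k < x i → L (.inl (i, k)) < m := by
    intro i
    obtain ⟨n, hn, hn2⟩ := ((hL.1 i).and
      (eventually_ge_atTop (max m ((-x i).toNat + 1)))).exists
    obtain ⟨_, ⟨k, _, hk2, hk3⟩⟩ := hn
    have hm : m ≤ n := (le_max_left _ _).trans hn2
    have hx : (-x i).toNat + 1 ≤ n := (le_max_right _ _).trans hn2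
    obtain ⟨c, hc1, hc2⟩ := Int.exists_greatest_of_bdd
      (P := fun k => k < x i ∧ m ≤ L (.inl (i, k))) ⟨x i, fun z hz => hz.1.le⟩
      ⟨k, by omega, hm.trans hk3⟩
    refine ⟨c, hc1.1, hc1.2, fun k' h1 h2 => ?_⟩
    by_contra h3
    have := hc2 k' ⟨h2, by omega⟩
    omega
  choose p hp using h1
  exact ⟨p, hp⟩

lemma cor_bound {L : Ix d → ℕ} (hL : Good L) (x : Fin d → ℤ) :
    ∀ᶠ m : ℕ in atTop, ∀ c, IsCor L m x c → ∀ i, c i < kk m := by
  have h1 : ∀ i, ∀ᶠ m : ℕ in atTop, ∀ c, IsCor L m x c → c i < kk m := by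
    intro i
    filter_upwards [hL.1 i, eventually_ge_atTop (x i).toNat] with n hn hn2 c hc
    obtain ⟨⟨k, hk1, hk2, hk3⟩, _⟩ := hn
    by_contra hcon
    have := (hc i).2.2 k (by omega) (by omega)
    omega
  filter_upwards [eventually_all.2 h1] with m hm c hc i
  exact hm i c hc

lemma pre_bound {L : Ix d → ℕ} (hL : Good L) (x : Fin d → ℤ) :
    ∀ᶠ m : ℕ in atTop, ∀ p, IsPre L m x p → ∀ i, -(kk m : ℤ) < p i := by
  have h1 : ∀ i, ∀ᶠ m : ℕ in atTop, ∀ p, IsPre L m x p → -(kk m : ℤ) < p i := by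
    intro i
    filter_upwards [hL.1 i, eventually_ge_atTop ((-x i).toNat + 1)] with n hn hn2 p hp
    obtain ⟨_, ⟨k, hk1, hk2, hk3⟩⟩ := hn
    by_contra hcon
    have := (hp i).2.2 k (by omega) (by omega)
    omega
  filter_upwards [eventually_all.2 h1] with m hm c hc i
  exact hm i c hc

lemma cor_step {L : Ix d → ℕ} {m : ℕ} {x c y : Fin d → ℤ} {i : Fin d} (hc : IsCor L m x c)
    (h0 : ∀ j, x j ≤ y j) (h1 : ∀ j, y j ≤ c j) (hi : IsMin (lab L y) i) :
    (∀ j, m ≤ lab L y j) ∨ ∀ j, (y + ev i) j ≤ c j := by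
  by_cases h : ∀ j, y j = c j
  · left
    intro j
    unfold lab
    rw [h j]
    exact (hc j).2.1
  · right
    push Not at h
    obtain ⟨j, hj⟩ := h
    have h2 : lab L y j < m := (hc j).2.2 _ (h0 j) (lt_of_le_of_ne (h1 j) hj)
    have h3 : lab L y i < m := lt_of_le_of_lt (hi.le j) h2
    have h4 : y i ≠ c i := by
      intro h5
      have h6 : m ≤ lab L y i := by
        unfold lab
        rw [h5]
        exact (hc i).2.1
      omega
    intro k
    by_cases hk : k = i
    · subst hk
      rw [Pi.add_apply, ev_same]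
      have := h1 k
      omega
    · rw [Pi.add_apply, ev_ne hk, add_zero]
      exact h1 k

/-- The next point of the path. -/
noncomputable def nxt [NeZero d] (L : Ix d → ℕ) (x : Fin d → ℤ) : Fin d → ℤ :=
  x + ev (Classical.choose (exists_isMin (lab L x)))

/-- The path from the origin. -/
noncomputable def pth [NeZero d] (L : Ix d → ℕ) : ℕ → Fin d → ℤ
  | 0 => 0
  | k + 1 => nxt L (pth L k)

lemma pth_nonneg [NeZero d] (L : Ix d → ℕ) (k : ℕ) (j : Fin d) : 0 ≤ pth L k j := by
  induction k with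
  | zero => exact le_rfl
  | succ k ih =>
    have h0 : pth L (k + 1) j = pth L k j +
      ev (Classical.choose (exists_isMin (lab L (pth L k)))) j := rfl
    rw [h0]
    have : 0 ≤ ev (Classical.choose (exists_isMin (lab L (pth L k)))) j := by
      unfold ev
      by_cases h : j = Classical.choose (exists_isMin (lab L (pth L k)))
      · rw [← h, Pi.single_eq_same]; norm_num
      · rw [Pi.single_eq_of_ne h]
    omega

lemma pth_sum [NeZero d] (L : Ix d → ℕ) (k : ℕ) : ∑ j, pth L k j = k := by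
  induction k with
  | zero =>
    show ∑ _j : Fin d, (0 : ℤ) = ((0 : ℕ) : ℤ)
    simp
  | succ k ih =>
    have h0 : ∀ j, pth L (k + 1) j = pth L k j +
      ev (Classical.choose (exists_isMin (lab L (pth L k)))) j := fun j => rfl
    simp only [h0]
    rw [Finset.sum_add_distrib, ih]
    have : ∑ j, ev (Classical.choose (exists_isMin (lab L (pth L k)))) j = 1 := by
      unfold ev
      rw [Finset.sum_pi_single']
      simp
    rw [this]
    push_cast
    rfl

lemma pth_dich [NeZero d] {L : Ix d → ℕ} {m : ℕ} {c : Fin d → ℤ} (hc : IsCor L m 0 c) (k : ℕ) :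
    (∀ j, pth L k j ≤ c j) ∨ AO m (lab L (pth L k)) := by
  induction k with
  | zero => exact Or.inl fun j => (hc j).1
  | succ k ih =>
    have hi := Classical.choose_spec (exists_isMin (lab L (pth L k)))
    rcases ih with h | h
    · rcases cor_step hc (fun j => pth_nonneg L k j) h hi with h1 | h1
      · right
        have h2 : AO m (lab L (pth L k)) := fun i j _ => Or.inl (h1 i)
        exact h2.step hi
      · exact Or.inl h1
    · exact Or.inr (h.step hi)

lemma gth_mono (d : ℕ) {m n : ℕ} (h : m ≤ n) : gth d m ≤ gth d n := by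
  unfold gth
  have : d * (2 * m + 5) ≤ d * (2 * n + 5) := Nat.mul_le_mul_left d (by omega)
  omega

lemma kk_mono (m : ℕ) : kk m ≤ kk (m + 1) := by
  unfold kk
  have : m * 2 ^ m ≤ (m + 1) * 2 ^ (m + 1) :=
    Nat.mul_le_mul (by omega) (Nat.pow_le_pow_right (by norm_num) (by omega))
  omega

/-- **The percolation has an infinite cluster.** -/
theorem perc_good [NeZero d] (hd : 2 ≤ d) {L : Ix d → ℕ} (hL : Good L) :
    ∃ C : (opn (lat d) (FF L)).ConnectedComponent, C.supp.Infinite := by
  obtain ⟨N, hN⟩ := eventually_atTop.1 (hL.2.and (cor_bound hL 0))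
  obtain ⟨c, hc⟩ := exists_cor hL N 0
  obtain ⟨k₀, hk₀⟩ : ∃ k₀ : ℕ, (∑ j, c j) < k₀ := ⟨(∑ j, c j).toNat + 1, by omega⟩
  have hopen : ∀ k, k₀ ≤ k → (opn (lat d) (FF L)).Adj (pth L k) (pth L (k + 1)) := by
    intro k hk
    have hi := Classical.choose_spec (exists_isMin (lab L (pth L k)))
    obtain ⟨i, hi2⟩ : ∃ i, i = Classical.choose (exists_isMin (lab L (pth L k))) := ⟨_, rfl⟩
    have hnext : pth L (k + 1) = pth L k + ev i := by rw [hi2]; rfl
    rw [← hi2] at hi
    -- the level
    have h1 : AO N (lab L (pth L k)) := by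
      rcases pth_dich hc k with h | h
      · exfalso
        have h2 : ∑ j, pth L k j ≤ ∑ j, c j := Finset.sum_le_sum fun j _ => h j
        rw [pth_sum] at h2
        omega
      · exact h
    have h2 : ∃ n, ¬ AO n (lab L (pth L k)) := by
      refine ⟨Finset.univ.sup (lab L (pth L k)) + 1, fun h => ?_⟩
      have := h.le_sup hd
      omega
    classical
    obtain ⟨n, hn1, hn2⟩ : ∃ n, AO n (lab L (pth L k)) ∧ ¬ AO (n + 1) (lab L (pth L k)) := by
      have h3 := Nat.find_spec h2
      rcases h4 : Nat.find h2 with _ | n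
      · rw [h4] at h3
        exact absurd (fun i j _ => Or.inl (Nat.zero_le _)) h3
      · rw [h4] at h3
        refine ⟨n, ?_, h3⟩
        by_contra h5
        have := Nat.find_min' h2 h5
        omega
    have hNn : N ≤ n := by
      by_contra h3
      exact hn2 (h1.mono (by omega))
    obtain ⟨c', hc'⟩ := exists_cor hL (n + 1) 0
    have h4 : ∀ j, pth L k j ≤ c' j := by
      rcases pth_dich hc' k with h | h
      · exact h
      · exact absurd h hn2
    have h5 := (hN (n + 1) (by omega)).2 c' hc'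
    have h6 : ∀ j, |pth L k j| ≤ kk (n + 1) := by
      intro j
      rw [abs_of_nonneg (pth_nonneg L k j)]
      have e1 := h4 j
      have e2 := h5 j
      omega
    have h7 := (hN n hNn).1 _ h6 i
    have h8 : FF L (edg (pth L k, i)) = true := by
      rw [FF_edg]
      unfold val
      have h9 : ¬ gth d (Finset.univ.sup (lab L (pth L k))) < L (.inr (pth L k, i)) := by
        have := gth_mono d (hn1.le_sup hd)
        omega
      simp only
      rw [decide_eq_true hi, decide_eq_false h9]
      rfl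
    rw [hnext]
    exact (opn_adj (adj_add (pth L k) i)).2 h8
  have hreach : ∀ k, (opn (lat d) (FF L)).Reachable (pth L k₀) (pth L (k₀ + k)) := by
    intro k
    induction k with
    | zero => exact SimpleGraph.Reachable.refl _
    | succ k ih => exact ih.trans (hopen (k₀ + k) (by omega)).reachable
  refine ⟨(opn (lat d) (FF L)).connectedComponentMk (pth L k₀), ?_⟩
  have hinj : Function.Injective fun k : ℕ => pth L (k₀ + k) := by
    intro a b hab
    have h1 := pth_sum L (k₀ + a)
    have h2 := pth_sum L (k₀ + b)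
    simp only at hab
    rw [hab, h2] at h1
    omega
  refine (Set.infinite_range_of_injective hinj).mono ?_
  rintro _ ⟨k, rfl⟩
  rw [SimpleGraph.ConnectedComponent.mem_supp_iff, SimpleGraph.ConnectedComponent.eq]
  exact (hreach k).symm

/-- The edges which may leave the block. -/
def sur (c p : Fin d → ℤ) : Finset (lat d).edgeSet :=
  open Classical in
  (Finset.univ.image fun j => edg (c, j)) ∪
    Finset.univ.image fun j => edg (Function.update c j (p j), j)

lemma card_sur (c p : Fin d → ℤ) : (sur c p).card ≤ 2 * d := by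
  classical
  unfold sur
  refine (Finset.card_union_le _ _).trans ?_
  have h1 : (Finset.univ.image fun j => edg (c, j)).card ≤ d :=
    Finset.card_image_le.trans (by simp)
  have h2 : (Finset.univ.image fun j => edg (Function.update c j (p j), j)).card ≤ d :=
    Finset.card_image_le.trans (by simp)
  omega

lemma mem_sur {L : Ix d → ℕ} {m : ℕ} {x c p : Fin d → ℤ} (hc : IsCor L m x c)
    (hp : IsPre L m x p) {q : (Fin d → ℤ) × Fin d} (hq : edg q ∈ sur c p) :
    m ≤ L (.inl (q.2, q.1 q.2)) := by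
  classical
  unfold sur at hq
  rw [Finset.mem_union, Finset.mem_image, Finset.mem_image] at hq
  rcases hq with ⟨j, _, h⟩ | ⟨j, _, h⟩
  · rw [← edg_injective h]
    exact (hc j).2.1
  · rw [← edg_injective h]
    simp only [Function.update_self]
    exact (hp j).2.1

/-- The block. -/
def Blk (c p : Fin d → ℤ) : Set (Fin d → ℤ) := {z | ∀ i, p i < z i ∧ z i ≤ c i}

lemma blk_finite (c p : Fin d → ℤ) : (Blk c p).Finite := by
  have h1 : Blk c p = Set.pi Set.univ fun i => Set.Ioc (p i) (c i) := by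
    ext z
    simp [Blk, Set.mem_pi]
  rw [h1]
  exact Set.Finite.pi fun i => Set.finite_Ioc (p i) (c i)

lemma cross {L : Ix d → ℕ} {m : ℕ} {x c p : Fin d → ℤ} (hc : IsCor L m x c) (hp : IsPre L m x p)
    (hcb : ∀ i, c i < kk m) (hpb : ∀ i, -(kk m : ℤ) < p i)
    (hfl : ∀ x : Fin d → ℤ, (∀ j, |x j| ≤ kk (m + 1)) → ∀ i, L (.inr (x, i)) ≤ gth d m)
    {y : Fin d → ℤ} {j : Fin d}
    (hy : (y ∈ Blk c p ∧ y + ev j ∉ Blk c p) ∨ (y ∉ Blk c p ∧ y + ev j ∈ Blk c p))
    (ho : FF L (edg (y, j)) = true) : edg (y, j) ∈ sur c p := by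
  classical
  have h1 : (∀ i, i ≠ j → p i < y i ∧ y i ≤ c i) ∧ (y j = c j ∨ y j = p j) := by
    rcases hy with ⟨h1, h2⟩ | ⟨h1, h2⟩
    · refine ⟨fun i _ => h1 i, Or.inl ?_⟩
      by_contra h3
      apply h2
      intro i
      by_cases hi : i = j
      · subst hi
        rw [Pi.add_apply, ev_same]
        have := h1 i
        omega
      · rw [Pi.add_apply, ev_ne hi, add_zero]
        exact h1 i
    · have h3 : ∀ i, i ≠ j → p i < y i ∧ y i ≤ c i := by
        intro i hi
        have := h2 i
        rwa [Pi.add_apply, ev_ne hi, add_zero] at this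
      refine ⟨h3, Or.inr ?_⟩
      by_contra h4
      apply h1
      intro i
      by_cases hi : i = j
      · subst hi
        have h5 := h2 i
        rw [Pi.add_apply, ev_same] at h5
        omega
      · exact h3 i hi
  obtain ⟨h1, h2⟩ := h1
  have hpc : ∀ i, p i < c i := fun i => lt_of_lt_of_le (hp i).1 (hc i).1
  have hlab : m ≤ lab L y j := by
    unfold lab
    rcases h2 with h2 | h2
    · rw [h2]; exact (hc j).2.1
    · rw [h2]; exact (hp j).2.1
  have hbox : ∀ i, |y i| ≤ kk (m + 1) := by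
    intro i
    have e1 := hcb i
    have e2 := hpb i
    have e3 := kk_mono m
    have e4 := hpc i
    rw [abs_le]
    by_cases hi : i = j
    · subst hi
      rcases h2 with h2 | h2 <;> omega
    · have := h1 i hi
      omega
  have hfl2 : ¬ gth d (Finset.univ.sup (lab L y)) < L (.inr (y, j)) := by
    have h3 := hfl y hbox j
    have h4 := gth_mono d (hlab.trans (Finset.le_sup (f := lab L y) (Finset.mem_univ j)))
    omega
  have hmin : IsMin (lab L y) j := by
    by_contra h3
    rw [FF_edg] at ho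
    unfold val at ho
    simp only at ho
    rw [decide_eq_false h3, decide_eq_false hfl2] at ho
    exact absurd ho (by decide)
  have h3 : ∀ i, i ≠ j → y i = c i := by
    intro i hi
    by_contra h4
    have h5 := h1 i hi
    have h6 : m ≤ lab L y i := hlab.trans (hmin.le i)
    have h7 : lab L y i < m := by
      unfold lab
      rcases lt_or_ge (y i) (x i) with h8 | h8
      · exact (hp i).2.2 _ h5.1 h8
      · exact (hc i).2.2 _ h8 (by omega)
    omega
  unfold sur
  rw [Finset.mem_union, Finset.mem_image, Finset.mem_image]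
  rcases h2 with h2 | h2
  · left
    refine ⟨j, Finset.mem_univ _, ?_⟩
    congr 1
    refine Prod.ext (funext fun i => ?_) rfl
    by_cases hi : i = j
    · rw [hi]; exact h2.symm
    · exact (h3 i hi).symm
  · right
    refine ⟨j, Finset.mem_univ _, ?_⟩
    congr 1
    refine Prod.ext (funext fun i => ?_) rfl
    by_cases hi : i = j
    · subst hi
      show Function.update c i (p i) i = y i
      rw [Function.update_self]; exact h2.symm
    · show Function.update c j (p j) i = y i
      rw [Function.update_of_ne hi]; exact (h3 i hi).symm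

/-- **Few edges leave the blocks.** -/
theorem block_thin {L : Ix d → ℕ} (hL : Good L) (x : Fin d → ℤ) :
    ∃ S : ℕ → Finset (lat d).edgeSet, (∀ m, (S m).card ≤ 2 * d) ∧
      (∀ e, ∀ᶠ m in atTop, e ∉ S m) ∧
      ∀ T : Cfg d, (∃ᶠ m in atTop, ∀ e ∈ S m, T e = false) →
        {z | (opn (lat d) fun e => FF L e && T e).Reachable x z}.Finite := by
  classical
  choose c hc using fun m => exists_cor hL m x
  choose p hp using fun m => exists_pre hL m x
  refine ⟨fun m => sur (c m) (p m), fun m => card_sur _ _, fun e => ?_, fun T hT => ?_⟩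
  · obtain ⟨q, rfl⟩ := edg_surjective e
    filter_upwards [eventually_gt_atTop (L (.inl (q.2, q.1 q.2)))] with m hm hmem
    have := mem_sur (hc m) (hp m) hmem
    omega
  · obtain ⟨m, hm1, hm2, hm3, hm4⟩ := (hT.and_eventually
      ((cor_bound hL x).and ((pre_bound hL x).and hL.2))).exists
    refine (blk_finite (c m) (p m)).subset ?_
    have hcl : ∀ y z : Fin d → ℤ, (opn (lat d) fun e => FF L e && T e).Adj y z →
        y ∈ Blk (c m) (p m) → z ∈ Blk (c m) (p m) := by
      intro y z hyz hy
      by_contra hz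
      have h1 : (lat d).Adj y z := opn_le _ hyz
      rcases adj_iff.1 h1 with ⟨j, rfl⟩ | ⟨j, rfl⟩
      · have h2 : (FF L (edg (y, j)) && T (edg (y, j))) = true := (opn_adj (adj_add y j)).1 hyz
        rw [Bool.and_eq_true] at h2
        have h3 := cross (hc m) (hp m) (hm2 _ (hc m)) (hm3 _ (hp m)) hm4 (Or.inl ⟨hy, hz⟩) h2.1
        have h4 := hm1 _ h3
        rw [h2.2] at h4
        exact absurd h4 (by decide)
      · have h2 : (FF L (edg (z, j)) && T (edg (z, j))) = true :=
          (opn_adj (adj_add z j)).1 hyz.symm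
        rw [Bool.and_eq_true] at h2
        have h3 := cross (hc m) (hp m) (hm2 _ (hc m)) (hm3 _ (hp m)) hm4 (Or.inr ⟨hz, hy⟩) h2.1
        have h4 := hm1 _ h3
        rw [h2.2] at h4
        exact absurd h4 (by decide)
    have hx : x ∈ Blk (c m) (p m) := fun i => ⟨((hp m) i).1, ((hc m) i).1⟩
    have key : ∀ y z : Fin d → ℤ, (opn (lat d) fun e => FF L e && T e).Walk y z →
        y ∈ Blk (c m) (p m) → z ∈ Blk (c m) (p m) := by
      intro y z q
      induction q with
      | nil => exact fun h => h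
      | cons h q ih => exact fun hy => ih (hcl _ _ h hy)
    rintro z ⟨q⟩
    exact key x z q hx

end Pool.Agent.V11322.FE
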