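import Pool.Agent.V11322.FE.Lab

/-!
# The almost sure properties of the labels
-/

namespace Pool.Agent.V11322.FE

open MeasureTheory ProbabilityTheory Filter
open scoped NNReal ENNReal

/-- The size of the boxes. -/
def kk (n : ℕ) : ℕ := n * 2 ^ n + n

/-- The good labels. -/
def Good {d : ℕ} (L : Ix d → ℕ) : Prop :=
  (∀ i, ∀ᶠ n : ℕ in atTop, (∃ k : ℤ, (n : ℤ) ≤ k ∧ k < kk n ∧ n ≤ L (.inl (i, k))) ∧
    ∃ k : ℤ, -(kk n : ℤ) < k ∧ k ≤ -(n : ℤ) ∧ n ≤ L (.inl (i, k))) ∧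
  ∀ᶠ n : ℕ in atTop, ∀ x : Fin d → ℤ, (∀ j, |x j| ≤ kk (n + 1)) →
    ∀ i, L (.inr (x, i)) ≤ gth d n

lemma few {I : Type} (s : Finset I) (n : ℕ) :
    (PP I).real {L | ∀ a ∈ s, L a < n} = (1 - (1 / 2) ^ n) ^ s.card := by
  have h1 : {L : I → ℕ | ∀ a ∈ s, L a < n} = Set.pi (s : Set I) fun _ => {k | k < n} := by
    ext L
    simp [Set.mem_pi]
  rw [h1, measureReal_def, PP_pi, Finset.prod_const, ENNReal.toReal_pow, ← measureReal_def,
    geo_lt]

lemma few_le {I : Type} (s : Finset I) (n : ℕ) (hs : s.card = n * 2 ^ n) :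
    (PP I).real {L | ∀ a ∈ s, L a < n} ≤ Real.exp (-(n : ℝ)) := by
  rw [few, hs]
  have h0 : (0 : ℝ) ≤ 1 - (1 / 2) ^ n := by
    have : (1 / 2 : ℝ) ^ n ≤ 1 := pow_le_one₀ (by norm_num) (by norm_num)
    linarith
  have h1 : (1 : ℝ) - (1 / 2) ^ n ≤ Real.exp (-((1 / 2) ^ n)) := by
    have := Real.add_one_le_exp (-((1 / 2 : ℝ) ^ n))
    linarith
  refine (pow_le_pow_left₀ h0 h1 _).trans (le_of_eq ?_)
  rw [← Real.exp_nat_mul]
  congr 1
  push_cast
  rw [mul_neg, mul_assoc, ← mul_pow]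
  norm_num

lemma sum_exp : Summable fun n : ℕ => Real.exp (-(n : ℝ)) := Real.summable_exp_neg_nat

lemma bc {I : Type} (s : ℕ → Set (I → ℕ)) (f : ℕ → ℝ) (hf : Summable f)
    (h : ∀ n, (PP I).real (s n) ≤ f n) : ∀ᵐ L ∂(PP I), ∀ᶠ n in atTop, L ∉ s n := by
  refine ae_eventually_notMem ?_
  refine ne_top_of_le_ne_top hf.tsum_ofReal_ne_top (ENNReal.tsum_le_tsum fun n => ?_)
  rw [← ENNReal.ofReal_toReal (measure_ne_top (PP I) (s n))]
  exact ENNReal.ofReal_le_ofReal (h n)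

lemma kk_bound (n : ℕ) : 2 * kk (n + 1) + 1 ≤ 2 ^ (2 * n + 5) := by
  unfold kk
  have h1 : n + 1 ≤ 2 ^ n := Nat.lt_two_pow_self
  have h2 : (n + 1) * 2 ^ (n + 1) ≤ 2 ^ n * 2 ^ (n + 1) := Nat.mul_le_mul_right _ h1
  have h3 : 2 ^ n * 2 ^ (n + 1) = 2 ^ (2 * n + 1) := by rw [← pow_add]; congr 1; ring
  have h4 : 2 ^ n ≤ 2 ^ (2 * n) := Nat.pow_le_pow_right (by norm_num) (by omega)
  have h5 : 2 ^ (2 * n + 1) = 2 ^ (2 * n) * 2 := pow_succ _ _
  have h6 : 2 ^ (2 * n + 5) = 2 ^ (2 * n) * 32 := by rw [pow_add]; norm_num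
  have h7 : 1 ≤ 2 ^ (2 * n) := Nat.one_le_pow _ _ (by norm_num)
  omega

theorem ae_good (d : ℕ) : ∀ᵐ L ∂(PP (Ix d)), Good L := by
  classical
  have h1 : ∀ i : Fin d, ∀ᵐ L ∂(PP (Ix d)), ∀ᶠ n : ℕ in atTop,
      (∃ k : ℤ, (n : ℤ) ≤ k ∧ k < kk n ∧ n ≤ L (.inl (i, k))) ∧
      ∃ k : ℤ, -(kk n : ℤ) < k ∧ k ≤ -(n : ℤ) ∧ n ≤ L (.inl (i, k)) := by
    intro i
    have hp := bc (I := Ix d) (fun n => {L | ∀ a ∈ (Finset.Ico (n : ℤ) (kk n)).image
      (fun k => (Sum.inl (i, k) : Ix d)), L a < n}) _ sum_exp fun n => by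
        refine few_le _ n ?_
        rw [Finset.card_image_of_injective _ fun a b h => by simpa using h, Int.card_Ico]
        have h0 : kk n = n * 2 ^ n + n := rfl
        rw [h0]
        generalize n * 2 ^ n = z
        omega
    have hm := bc (I := Ix d) (fun n => {L | ∀ a ∈ (Finset.Ioc (-(kk n : ℤ)) (-(n : ℤ))).image
      (fun k => (Sum.inl (i, k) : Ix d)), L a < n}) _ sum_exp fun n => by
        refine few_le _ n ?_
        rw [Finset.card_image_of_injective _ fun a b h => by simpa using h, Int.card_Ioc]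
        have h0 : kk n = n * 2 ^ n + n := rfl
        rw [h0]
        generalize n * 2 ^ n = z
        omega
    filter_upwards [hp, hm] with L hp hm
    filter_upwards [hp, hm] with n hp hm
    simp only [Set.mem_ofPred_eq, Finset.mem_image, Finset.mem_Ico, Finset.mem_Ioc, not_forall,
      not_lt] at hp hm
    obtain ⟨a, ⟨k, ⟨hk1, hk2⟩, rfl⟩, hk3⟩ := hp
    obtain ⟨a', ⟨k', ⟨hk1', hk2'⟩, rfl⟩, hk3'⟩ := hm
    exact ⟨⟨k, hk1, hk2, hk3⟩, k', hk1', hk2', hk3'⟩
  have h2 : ∀ᵐ L ∂(PP (Ix d)), ∀ᶠ n : ℕ in atTop, ∀ x : Fin d → ℤ, (∀ j, |x j| ≤ kk (n + 1)) →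
      ∀ i, L (.inr (x, i)) ≤ gth d n := by
    have hsum : Summable fun n : ℕ => (d : ℝ) * (1 / 2) ^ n := summable_geometric_two.mul_left _
    have hq := bc (I := Ix d) (fun n => ⋃ q ∈ Fintype.piFinset
      (fun _ : Fin d => Finset.Icc (-(kk (n + 1) : ℤ)) (kk (n + 1))) ×ˢ
        (Finset.univ : Finset (Fin d)), {L : Ix d → ℕ | gth d n + 1 ≤ L (.inr q)}) _ hsum
      fun n => by
        refine (measureReal_biUnion_finset_le _ _).trans ?_
        have h3 : ∀ q : (Fin d → ℤ) × Fin d,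
            (PP (Ix d)).real {L : Ix d → ℕ | gth d n + 1 ≤ L (.inr q)} =
              (1 / 2) ^ (gth d n + 1) := by
          intro q
          have h4 : {L : Ix d → ℕ | gth d n + 1 ≤ L (.inr q)} =
              Set.pi (({.inr q} : Finset (Ix d)) : Set (Ix d))
                fun _ => {k | gth d n + 1 ≤ k} := by
            ext L
            simp [Set.mem_pi]
          rw [h4, measureReal_def, PP_pi, Finset.prod_const, Finset.card_singleton, pow_one,
            ← measureReal_def, geo_ge]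
        simp only [h3]
        rw [Finset.sum_const, nsmul_eq_mul, Finset.card_product, Fintype.card_piFinset,
          Finset.prod_const, Finset.card_univ, Fintype.card_fin, Int.card_Icc]
        have h5 : ((kk (n + 1) : ℤ) + 1 - -(kk (n + 1) : ℤ)).toNat = 2 * kk (n + 1) + 1 := by
          omega
        rw [h5]
        have h6 : (((2 * kk (n + 1) + 1) ^ d * d : ℕ) : ℝ) ≤ (2 : ℝ) ^ (d * (2 * n + 5)) * d := by
          have h7 : (2 * kk (n + 1) + 1) ^ d ≤ (2 ^ (2 * n + 5)) ^ d :=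
            Nat.pow_le_pow_left (kk_bound n) d
          rw [← pow_mul, mul_comm (2 * n + 5) d] at h7
          exact_mod_cast Nat.mul_le_mul_right d h7
        refine (mul_le_mul_of_nonneg_right h6 (by positivity)).trans ?_
        have h8 : (1 / 2 : ℝ) ^ (gth d n + 1) ≤ (1 / 2) ^ (gth d n) :=
          pow_le_pow_of_le_one (by norm_num) (by norm_num) (by omega)
        refine (mul_le_mul_of_nonneg_left h8 (by positivity)).trans (le_of_eq ?_)
        unfold gth
        rw [pow_add, mul_right_comm]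
        have h9 : (2 : ℝ) ^ (d * (2 * n + 5)) * ((1 / 2) ^ n * (1 / 2) ^ (d * (2 * n + 5))) =
            (1 / 2) ^ n := by
          rw [mul_left_comm, ← mul_pow]
          norm_num
        rw [h9, mul_comm]
    filter_upwards [hq] with L hq
    filter_upwards [hq] with n hq
    intro x hx i
    by_contra hcon
    apply hq
    rw [Set.mem_iUnion₂]
    refine ⟨(x, i), ?_, ?_⟩
    · rw [Finset.mem_product, Fintype.mem_piFinset]
      refine ⟨fun j => ?_, Finset.mem_univ _⟩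
      have := hx j
      rw [abs_le] at this
      exact Finset.mem_Icc.2 this
    · show gth d n + 1 ≤ L (.inr (x, i))
      omega
  filter_upwards [ae_all_iff.2 h1, h2] with L h3 h4
  exact ⟨h3, h4⟩

end Pool.Agent.V11322.FE
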