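import Pool.Agent.V11322.FE.Sym

/-!
# Geometric labels and the percolation built from them
-/

namespace Pool.Agent.V11322.FE

open MeasureTheory ProbabilityTheory
open scoped NNReal ENNReal

/-- The parameter one half. -/
noncomputable def hf : unitInterval := ⟨1 / 2, by norm_num, by norm_num⟩

lemma hf_ne : hf ≠ 0 := by
  intro h
  have := congrArg Subtype.val h
  norm_num [hf] at this

/-- Geometric labels. -/
noncomputable def geo : Measure ℕ := geometricMeasure hf

instance : IsProbabilityMeasure geo := by
  unfold geo
  infer_instance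

lemma geo_singleton (n : ℕ) : geo.real {n} = (1 / 2) ^ (n + 1) := by
  unfold geo
  rw [geometricMeasure_real_singleton hf_ne]
  have : (hf : ℝ) = 1 / 2 := rfl
  rw [this, pow_succ]
  norm_num

lemma geo_lt (n : ℕ) : geo.real {k | k < n} = 1 - (1 / 2) ^ n := by
  have h1 : {k : ℕ | k < n} = ((Finset.range n : Finset ℕ) : Set ℕ) := by
    ext k; simp
  rw [h1, ← sum_measureReal_singleton]
  simp only [geo_singleton]
  induction n with
  | zero => simp
  | succ n ih =>
    rw [Finset.sum_range_succ, ih (by ext k; simp)]
    ring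

lemma geo_ge (n : ℕ) : geo.real {k | n ≤ k} = (1 / 2) ^ n := by
  have h1 : {k : ℕ | n ≤ k} = {k : ℕ | k < n}ᶜ := by
    ext k; simp
  rw [h1, probReal_compl_eq_one_sub (Set.Finite.measurableSet (Set.finite_lt_nat n)), geo_lt]
  ring

lemma geo_le_ne (n : ℕ) : geo {k | k ≤ n} ≠ 0 := by
  intro h
  have h1 : geo.real {n} ≤ geo.real {k | k ≤ n} := measureReal_mono (by
    intro k hk
    rw [Set.mem_singleton_iff] at hk
    rw [hk]
    exact le_refl n)
  rw [geo_singleton, measureReal_def (s := {k | k ≤ n}), h, ENNReal.toReal_zero] at h1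
  have : (0 : ℝ) < (1 / 2) ^ (n + 1) := by positivity
  linarith

lemma geo_gt_ne (n : ℕ) : geo {k | n < k} ≠ 0 := by
  intro h
  have h1 := geo_ge (n + 1)
  have h2 : {k : ℕ | n + 1 ≤ k} = {k | n < k} := by
    ext k
    exact Nat.succ_le_iff
  rw [h2, measureReal_def, h, ENNReal.toReal_zero] at h1
  have : (0 : ℝ) < (1 / 2) ^ (n + 1) := by positivity
  linarith

section general

variable {I : Type}

/-- The product of the label measures. -/
noncomputable def PP (I : Type) : Measure (I → ℕ) := Measure.infinitePi fun _ : I => geo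

instance : IsProbabilityMeasure (PP I) := by
  unfold PP
  infer_instance

lemma PP_pi {s : Finset I} {t : I → Set ℕ} : PP I (Set.pi s t) = ∏ i ∈ s, geo (t i) :=
  Measure.infinitePi_pi _ fun _ _ => MeasurableSet.of_discrete

lemma PP_reindex (σ : I ≃ I) : (PP I).map (fun L i => L (σ i)) = PP I := by
  classical
  unfold PP
  refine Measure.eq_infinitePi _ fun s t ht => ?_
  have hm : Measurable fun (L : I → ℕ) i => L (σ i) :=
    measurable_pi_iff.2 fun i => measurable_pi_apply (σ i)
  rw [Measure.map_apply hm (MeasurableSet.pi s.countable_toSet fun i _ => ht i)]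
  have h1 : (fun (L : I → ℕ) i => L (σ i)) ⁻¹' Set.pi s t =
      Set.pi (s.map σ.toEmbedding : Finset I) fun i => t (σ.symm i) := by
    ext L
    simp only [Set.mem_preimage, Set.mem_pi, Finset.mem_coe, Finset.mem_map,
      Equiv.coe_toEmbedding, forall_exists_index, and_imp, forall_apply_eq_imp_iff₂,
      Equiv.symm_apply_apply]
  rw [h1]
  have h2 := PP_pi (I := I) (s := s.map σ.toEmbedding) (t := fun i => t (σ.symm i))
  unfold PP at h2
  rw [h2, Finset.prod_map]
  simp only [Equiv.coe_toEmbedding, Equiv.symm_apply_apply]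

lemma PP_update [DecidableEq I] (a : I) :
    (geo.prod (PP I)).map (fun q => Function.update q.2 a q.1) = PP I := by
  have hm : Measurable fun (q : ℕ × (I → ℕ)) => Function.update q.2 a q.1 := by
    refine measurable_pi_iff.2 fun i => ?_
    by_cases hi : i = a
    · subst hi
      simp only [Function.update_self]
      exact measurable_fst
    · simp only [Function.update_of_ne hi]
      exact (measurable_pi_apply i).comp measurable_snd
  have key := Measure.eq_infinitePi (fun _ : I => geo)
    (ν := (geo.prod (PP I)).map (fun q => Function.update q.2 a q.1)) ?_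
  · exact key
  intro s t ht
  rw [Measure.map_apply hm (MeasurableSet.pi s.countable_toSet fun i _ => ht i)]
  by_cases ha : a ∈ s
  · have h1 : (fun q : ℕ × (I → ℕ) => Function.update q.2 a q.1) ⁻¹' Set.pi s t =
        t a ×ˢ Set.pi (s.erase a : Finset I) t := by
      ext ⟨k, L⟩
      simp only [Set.mem_preimage, Set.mem_pi, Finset.mem_coe, Set.mem_prod, Finset.mem_erase]
      constructor
      · intro h
        refine ⟨by simpa using h a ha, fun i hi => ?_⟩
        have := h i hi.2
        rwa [Function.update_of_ne hi.1] at this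
      · rintro ⟨h1, h2⟩ i hi
        by_cases hia : i = a
        · subst hia
          rw [Function.update_self]; exact h1
        · rw [Function.update_of_ne hia]; exact h2 i ⟨hia, hi⟩
    rw [h1, Measure.prod_prod, PP_pi, Finset.mul_prod_erase s (fun i => geo (t i)) ha]
  · have h1 : (fun q : ℕ × (I → ℕ) => Function.update q.2 a q.1) ⁻¹' Set.pi s t =
        Set.univ ×ˢ Set.pi s t := by
      ext ⟨k, L⟩
      simp only [Set.mem_preimage, Set.mem_pi, Finset.mem_coe, Set.mem_prod, Set.mem_univ,
        true_and]
      refine forall₂_congr fun i hi => ?_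
      have hia : i ≠ a := fun h => ha (h ▸ hi)
      rw [Function.update_of_ne hia]
    rw [h1, Measure.prod_prod, measure_univ, one_mul, PP_pi]

/-- A label is independent of the other labels. -/
lemma PP_resample [DecidableEq I] (a : I) {A : Set (I → ℕ)} (hA : MeasurableSet A)
    (hinv : ∀ L k, L ∈ A ↔ Function.update L a k ∈ A) (s : Set ℕ) :
    PP I (A ∩ {L | L a ∈ s}) = geo s * PP I A := by
  have hm : Measurable fun (q : ℕ × (I → ℕ)) => Function.update q.2 a q.1 := by
    refine measurable_pi_iff.2 fun i => ?_
    by_cases hi : i = a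
    · subst hi
      simp only [Function.update_self]
      exact measurable_fst
    · simp only [Function.update_of_ne hi]
      exact (measurable_pi_apply i).comp measurable_snd
  have hs : MeasurableSet {L : I → ℕ | L a ∈ s} := by
    have h1 : Measurable fun L : I → ℕ => L a := measurable_pi_apply a
    exact h1 (MeasurableSet.of_discrete (s := s))
  conv_lhs => rw [← PP_update a]
  rw [Measure.map_apply hm (hA.inter hs)]
  have h1 : (fun q : ℕ × (I → ℕ) => Function.update q.2 a q.1) ⁻¹' (A ∩ {L | L a ∈ s}) =
      s ×ˢ A := by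
    ext ⟨k, L⟩
    simp only [Set.mem_preimage, Set.mem_inter_iff, Set.mem_ofPred_eq, Function.update_self,
      Set.mem_prod]
    rw [← hinv L k, and_comm]
  rw [h1, Measure.prod_prod]

end general

/-! ### The percolation -/

variable {d : ℕ}

/-- The indices of the labels: hyperplanes and edges. -/
abbrev Ix (d : ℕ) : Type := (Fin d × ℤ) ⊕ ((Fin d → ℤ) × Fin d)

/-- The labels of the hyperplanes through `x`. -/
def lab (L : Ix d → ℕ) (x : Fin d → ℤ) : Fin d → ℕ := fun i => L (.inl (i, x i))

/-- `i` is the first index with the smallest label. -/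
def IsMin (l : Fin d → ℕ) (i : Fin d) : Prop := ∀ j, l i < l j ∨ (l i = l j ∧ i ≤ j)

/-- The threshold for the flips. -/
def gth (d n : ℕ) : ℕ := n + d * (2 * n + 5)

/-- The value of the edge. -/
noncomputable def val (l : Fin d → ℕ) (i : Fin d) (t : ℕ) : Bool :=
  open Classical in xor (decide (IsMin l i)) (decide (gth d (Finset.univ.sup l) < t))

/-- The percolation as a function of the labels. -/
noncomputable def FF (L : Ix d → ℕ) : Cfg d := fun e =>
  val (lab L ((eqv d).symm e).1) ((eqv d).symm e).2 (L (.inr ((eqv d).symm e)))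

lemma FF_edg (L : Ix d → ℕ) (q : (Fin d → ℤ) × Fin d) :
    FF L (edg q) = val (lab L q.1) q.2 (L (.inr q)) := by
  unfold FF
  rw [← eqv_apply, Equiv.symm_apply_apply]

lemma lab_meas (x : Fin d → ℤ) : Measurable fun L : Ix d → ℕ => lab L x :=
  measurable_pi_iff.2 fun i => measurable_pi_apply (Sum.inl (i, x i))

lemma FF_meas : Measurable (FF : (Ix d → ℕ) → Cfg d) := by
  refine measurable_pi_iff.2 fun e => ?_
  have h1 : Measurable fun p : (Fin d → ℕ) × ℕ => val p.1 ((eqv d).symm e).2 p.2 :=
    measurable_of_countable _
  exact h1.comp ((lab_meas _).prodMk (measurable_pi_apply _))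

/-- The translation of the labels. -/
def shf (v : Fin d → ℤ) : Ix d ≃ Ix d :=
  Equiv.sumCongr
    { toFun := fun p => (p.1, p.2 + v p.1)
      invFun := fun p => (p.1, p.2 - v p.1)
      left_inv := fun p => by simp
      right_inv := fun p => by simp }
    { toFun := fun p => (p.1 + v, p.2)
      invFun := fun p => (p.1 - v, p.2)
      left_inv := fun p => by simp
      right_inv := fun p => by simp }

/-- The law of the percolation before the symmetrisation. -/
noncomputable def mu0 (d : ℕ) : Measure (Cfg d) := (PP (Ix d)).map FF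

instance : IsProbabilityMeasure (mu0 d) := Measure.isProbabilityMeasure_map FF_meas.aemeasurable

theorem mu0_trn (v : Fin d → ℤ) : (mu0 d).map (pull (trn v)) = mu0 d := by
  unfold mu0
  rw [Measure.map_map (pull_meas _) FF_meas]
  have h1 : (pull (trn v) ∘ FF : (Ix d → ℕ) → Cfg d) = FF ∘ fun L i => L (shf v i) := by
    funext L e
    obtain ⟨q, rfl⟩ := edg_surjective e
    show FF L ((trn v).mapEdgeSet (edg q)) = FF (fun i => L (shf v i)) (edg q)
    rw [trn_edg, FF_edg, FF_edg]
    rfl
  rw [h1, ← Measure.map_map FF_meas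
    (measurable_pi_iff.2 fun i => measurable_pi_apply (shf v i)), PP_reindex]

theorem mu0_tol : Tol (mu0 d) := by
  classical
  intro e c B hB hinv hne
  obtain ⟨q, rfl⟩ := edg_surjective e
  unfold mu0 at hne ⊢
  rw [Measure.map_apply FF_meas hB] at hne
  rw [Measure.map_apply FF_meas (hB.inter (meas_val _ c))]
  have hBm : MeasurableSet (FF ⁻¹' B : Set (Ix d → ℕ)) := FF_meas hB
  -- fix the labels of the hyperplanes
  have h1 : ∃ l : Fin d → ℕ, PP (Ix d) ((FF ⁻¹' B) ∩ {L | lab L q.1 = l}) ≠ 0 := by
    by_contra hcon
    push Not at hcon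
    apply hne
    refine measure_mono_null ?_ (measure_iUnion_null hcon)
    intro L hL
    exact Set.mem_iUnion.2 ⟨lab L q.1, hL, rfl⟩
  obtain ⟨l, hl⟩ := h1
  have hlm : MeasurableSet {L : Ix d → ℕ | lab L q.1 = l} :=
    lab_meas q.1 (measurableSet_singleton l)
  have hup : ∀ (L : Ix d → ℕ) k, FF (Function.update L (.inr q) k) =
      Function.update (FF L) (edg q) (val (lab L q.1) q.2 k) := by
    intro L k
    funext f
    obtain ⟨r, rfl⟩ := edg_surjective f
    have h2 : lab (Function.update L (.inr q) k) r.1 = lab L r.1 := by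
      funext i
      unfold lab
      rw [Function.update_of_ne (by simp)]
    rw [FF_edg, h2]
    by_cases hr : r = q
    · subst hr
      rw [Function.update_self, Function.update_self]
    · rw [Function.update_of_ne (fun h => hr (by simpa using h)),
        Function.update_of_ne (fun h => hr (edg_injective h)), FF_edg]
  have hinv2 : ∀ (L : Ix d → ℕ) k, L ∈ (FF ⁻¹' B) ∩ {L | lab L q.1 = l} ↔
      Function.update L (.inr q) k ∈ (FF ⁻¹' B) ∩ {L | lab L q.1 = l} := by
    intro L k
    have h2 : lab (Function.update L (.inr q) k) q.1 = lab L q.1 := by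
      funext i
      unfold lab
      rw [Function.update_of_ne (by simp)]
    simp only [Set.mem_inter_iff, Set.mem_preimage, Set.mem_ofPred_eq]
    rw [hup, h2, ← hinv]
  have h2 := PP_resample (.inr q) (hBm.inter hlm) hinv2 {t | val l q.2 t = c}
  have h3 : geo {t | val l q.2 t = c} ≠ 0 := by
    have h4 : {t | val l q.2 t = c} = {t | t ≤ gth d (Finset.univ.sup l)} ∨
        {t | val l q.2 t = c} = {t | gth d (Finset.univ.sup l) < t} := by
      unfold val
      by_cases hm : IsMin l q.2
      · rcases c with _ | _
        · right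
          ext t
          simp [hm]
        · left
          ext t
          simp [hm]
      · rcases c with _ | _
        · left
          ext t
          simp [hm]
        · right
          ext t
          simp [hm]
    rcases h4 with h4 | h4
    · rw [h4]; exact geo_le_ne _
    · rw [h4]; exact geo_gt_ne _
  intro h4
  have h5 : PP (Ix d) ((FF ⁻¹' B ∩ {L | lab L q.1 = l}) ∩
      {L | L (.inr q) ∈ {t | val l q.2 t = c}}) = 0 := by
    refine measure_mono_null ?_ h4
    rintro L ⟨⟨h6, h7⟩, h8⟩
    refine ⟨h6, ?_⟩
    show FF L (edg q) = c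
    rw [FF_edg, show lab L q.1 = l from h7]
    exact h8
  rw [h2] at h5
  rcases mul_eq_zero.1 h5 with h6 | h6
  · exact h3 h6
  · exact hl h6

end Pool.Agent.V11322.FE
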