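import Mathlib

/-!
# The cubic lattice: edges, translations, and the finiteness of the stabiliser of the origin
-/

namespace Pool.Agent.V11322.FE

/-- The cubic lattice: two points are adjacent if their distance is one. -/
def lat (d : ℕ) : SimpleGraph (Fin d → ℤ) where
  Adj x y := ∑ i, |x i - y i| = 1
  symm := ⟨fun x y h => by
    rw [← h]
    exact Finset.sum_congr rfl fun i _ => abs_sub_comm _ _⟩
  loopless := ⟨fun x h => by simp at h⟩

variable {d : ℕ}

/-- The unit vector. -/
def ev (i : Fin d) : Fin d → ℤ := Pi.single i 1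

lemma ev_same (i : Fin d) : ev i i = 1 := Pi.single_eq_same i 1

lemma ev_ne {i j : Fin d} (h : j ≠ i) : ev i j = 0 := Pi.single_eq_of_ne h 1

lemma adj_add (x : Fin d → ℤ) (i : Fin d) : (lat d).Adj x (x + ev i) := by
  show ∑ j, |x j - (x + ev i) j| = 1
  rw [Finset.sum_eq_single i]
  · rw [Pi.add_apply, ev_same]; simp
  · intro j _ hj
    rw [Pi.add_apply, ev_ne hj]; simp
  · simp

lemma adj_iff {x y : Fin d → ℤ} :
    (lat d).Adj x y ↔ (∃ i, y = x + ev i) ∨ ∃ i, x = y + ev i := by
  constructor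
  · intro h
    have h' : ∑ i, |x i - y i| = 1 := h
    obtain ⟨i, hi⟩ : ∃ i, x i ≠ y i := by
      by_contra hcon
      push Not at hcon
      rw [Finset.sum_eq_zero fun i _ => by rw [hcon i]; simp] at h'
      omega
    have h1 : 1 ≤ |x i - y i| := Int.one_le_abs (sub_ne_zero.2 hi)
    have h2 : |x i - y i| + ∑ j ∈ Finset.univ.erase i, |x j - y j| = 1 := by
      rw [Finset.add_sum_erase Finset.univ (fun j => |x j - y j|) (Finset.mem_univ i)]; exact h'
    have h3 : 0 ≤ ∑ j ∈ Finset.univ.erase i, |x j - y j| :=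
      Finset.sum_nonneg fun j _ => abs_nonneg _
    have h4 : ∑ j ∈ Finset.univ.erase i, |x j - y j| = 0 := by omega
    have h5 : ∀ j, j ≠ i → x j = y j := by
      intro j hj
      have := (Finset.sum_eq_zero_iff_of_nonneg fun j _ => abs_nonneg _).1 h4 j
        (Finset.mem_erase.2 ⟨hj, Finset.mem_univ j⟩)
      rw [abs_eq_zero] at this
      omega
    have h6 : |x i - y i| = 1 := by omega
    rw [abs_eq (by norm_num)] at h6
    rcases h6 with h6 | h6
    · right
      refine ⟨i, funext fun j => ?_⟩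
      by_cases hj : j = i
      · subst hj
        rw [Pi.add_apply, ev_same]; omega
      · rw [Pi.add_apply, ev_ne hj, h5 j hj, add_zero]
    · left
      refine ⟨i, funext fun j => ?_⟩
      by_cases hj : j = i
      · subst hj
        rw [Pi.add_apply, ev_same]; omega
      · rw [Pi.add_apply, ev_ne hj, h5 j hj, add_zero]
  · rintro (⟨i, rfl⟩ | ⟨i, rfl⟩)
    · exact adj_add x i
    · exact (adj_add y i).symm

/-- The edge from `x` to `x + ev i`. -/
def edg (q : (Fin d → ℤ) × Fin d) : (lat d).edgeSet := ⟨s(q.1, q.1 + ev q.2), adj_add q.1 q.2⟩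

lemma ev_inj {i j : Fin d} (h : ev i = ev j) : i = j := by
  by_contra hne
  have h1 := congrFun h i
  rw [ev_same, ev_ne hne] at h1
  omega

lemma edg_injective : Function.Injective (edg : (Fin d → ℤ) × Fin d → (lat d).edgeSet) := by
  rintro ⟨x, i⟩ ⟨y, j⟩ h
  have h1 := congrArg Subtype.val h
  simp only [edg, Sym2.eq_iff] at h1
  rcases h1 with ⟨h2, h3⟩ | ⟨h2, h3⟩
  · subst h2
    have h4 : ev i = ev j := add_left_cancel h3
    rw [ev_inj h4]
  · exfalso
    have h4 := congrFun h2 i
    have h5 := congrFun h3 i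
    simp only [Pi.add_apply, ev_same] at h4 h5
    have h6 : 0 ≤ ev j i := by
      unfold ev
      by_cases hij : i = j
      · subst hij; simp
      · rw [Pi.single_eq_of_ne hij]
    omega

lemma edg_surjective : Function.Surjective (edg : (Fin d → ℤ) × Fin d → (lat d).edgeSet) := by
  rintro ⟨e, he⟩
  induction e using Sym2.ind with
  | _ x y =>
    rcases adj_iff.1 (he : (lat d).Adj x y) with ⟨i, h⟩ | ⟨i, h⟩
    · refine ⟨(x, i), Subtype.ext ?_⟩
      show s(x, x + ev i) = s(x, y)
      rw [show y = x + ev i from h]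
    · refine ⟨(y, i), Subtype.ext ?_⟩
      show s(y, y + ev i) = s(x, y)
      rw [show x = y + ev i from h, Sym2.eq_swap]

/-- The edges are indexed by their lower endpoint and their direction. -/
noncomputable def eqv (d : ℕ) : (Fin d → ℤ) × Fin d ≃ (lat d).edgeSet :=
  Equiv.ofBijective edg ⟨edg_injective, edg_surjective⟩

lemma eqv_apply (q : (Fin d → ℤ) × Fin d) : eqv d q = edg q := rfl

/-- Translations. -/
def trn (v : Fin d → ℤ) : lat d ≃g lat d where
  toEquiv := Equiv.addRight v
  map_rel_iff' := by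
    intro x y
    show ∑ i, |(x + v) i - (y + v) i| = 1 ↔ ∑ i, |x i - y i| = 1
    simp only [Pi.add_apply, add_sub_add_right_eq_sub]

lemma trn_apply (v x : Fin d → ℤ) : trn v x = x + v := rfl

lemma trn_edg (v : Fin d → ℤ) (q : (Fin d → ℤ) × Fin d) :
    (trn v).mapEdgeSet (edg q) = edg (q.1 + v, q.2) := by
  apply Subtype.ext
  show Sym2.map (trn v) s(q.1, q.1 + ev q.2) = s(q.1 + v, q.1 + v + ev q.2)
  rw [Sym2.map_mk]
  show s(q.1 + v, q.1 + ev q.2 + v) = s(q.1 + v, q.1 + v + ev q.2)
  rw [add_right_comm]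

/-! ### Automorphisms which fix a point and its neighbours -/

/-- A unit vector. -/
def IsU (f : Fin d → ℤ) : Prop := ∃ i, f = ev i ∨ f = -ev i

lemma adj_iff_unit {x y : Fin d → ℤ} : (lat d).Adj x y ↔ ∃ f, IsU f ∧ y = x + f := by
  rw [adj_iff]
  constructor
  · rintro (⟨i, rfl⟩ | ⟨i, rfl⟩)
    · exact ⟨ev i, ⟨i, Or.inl rfl⟩, rfl⟩
    · exact ⟨-ev i, ⟨i, Or.inr rfl⟩, by abel⟩
  · rintro ⟨f, ⟨i, rfl | rfl⟩, rfl⟩
    · exact Or.inl ⟨i, rfl⟩
    · exact Or.inr ⟨i, by abel⟩

lemma unit_vals {f : Fin d → ℤ} (hf : IsU f) : ∃ i : Fin d, ∃ s : ℤ, (s = 1 ∨ s = -1) ∧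
    f = Pi.single i s := by
  obtain ⟨i, rfl | rfl⟩ := hf
  · exact ⟨i, 1, Or.inl rfl, rfl⟩
  · refine ⟨i, -1, Or.inr rfl, ?_⟩
    unfold ev
    rw [Pi.single_neg]

/-- The common neighbours of `x + f` and `x + h`. -/
lemma common {f h u v : Fin d → ℤ} (hf : IsU f) (hh : IsU h) (hu : IsU u) (hv : IsU v)
    (h1 : h ≠ f) (h2 : h ≠ -f) (he : f + u = h + v) : u = -f ∨ u = h := by
  obtain ⟨i, s, hs, rfl⟩ := unit_vals hf
  obtain ⟨j, t, ht, rfl⟩ := unit_vals hh
  obtain ⟨k, a, ha, rfl⟩ := unit_vals hu
  obtain ⟨l, c, hc, rfl⟩ := unit_vals hv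
  have hij : i ≠ j := by
    rintro rfl
    rcases hs with rfl | rfl <;> rcases ht with rfl | rfl
    · exact h1 rfl
    · exact h2 (by rw [← Pi.single_neg])
    · exact h2 (by rw [← Pi.single_neg, neg_neg])
    · exact h1 rfl
  have ei := congrFun he i
  have ej := congrFun he j
  simp only [Pi.add_apply, Pi.single_apply, if_true, hij, hij.symm, if_false] at ei ej
  by_cases hki : k = i
  · subst hki
    left
    rw [← Pi.single_neg]
    congr 1
    have hjk : ¬ j = k := fun h => hij h.symm
    rw [if_neg hjk] at ej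
    simp only [if_true] at ei
    by_cases hl : k = l
    · subst hl
      exfalso
      rw [if_pos rfl] at ei
      rcases hs with rfl | rfl <;> rcases ha with rfl | rfl <;> rcases hc with rfl | rfl <;> omega
    · rw [if_neg hl] at ei
      omega
  · have hik : ¬ i = k := fun h => hki h.symm
    rw [if_neg hik] at ei
    by_cases hl : i = l
    · subst hl
      rw [if_neg (fun h : j = i => hij h.symm)] at ej
      right
      by_cases hkj : j = k
      · subst hkj
        congr 1
        rw [if_pos rfl] at ej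
        omega
      · rw [if_neg hkj] at ej
        exfalso
        rcases ht with rfl | rfl <;> omega
    · rw [if_neg hl] at ei
      exfalso
      rcases hs with rfl | rfl <;> omega

lemma IsU.neg {f : Fin d → ℤ} (hf : IsU f) : IsU (-f) := by
  obtain ⟨i, rfl | rfl⟩ := hf
  · exact ⟨i, Or.inr rfl⟩
  · exact ⟨i, Or.inl (neg_neg _)⟩

lemma IsU.ne_zero {f : Fin d → ℤ} (hf : IsU f) : f ≠ 0 := by
  obtain ⟨i, rfl | rfl⟩ := hf
  · intro h
    have := congrFun h i
    rw [ev_same] at this
    simp at this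
  · intro h
    have := congrFun h i
    rw [Pi.neg_apply, ev_same] at this
    simp at this

/-- If an automorphism fixes `x` and its neighbours, it fixes the neighbours of a neighbour. -/
lemma fix_step (θ : lat d ≃g lat d) {x f : Fin d → ℤ} (hf : IsU f) (hx : θ x = x)
    (hn : ∀ h, IsU h → θ (x + h) = x + h) (h : Fin d → ℤ) (hh : IsU h) :
    θ (x + f + h) = x + f + h := by
  have hy : θ (x + f) = x + f := hn f hf
  -- the neighbours of `x + f` different from `x + f + f`
  have key : ∀ h, IsU h → h ≠ f → θ (x + f + h) = x + f + h := by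
    intro h hh hne
    by_cases hneg : h = -f
    · rw [hneg, add_neg_cancel_right, hx]
    · -- a common neighbour
      have h1 : (lat d).Adj (x + f) (θ (x + f + h)) := by
        have : (lat d).Adj (θ (x + f)) (θ (x + f + h)) :=
          θ.map_adj_iff.2 (adj_iff_unit.2 ⟨h, hh, rfl⟩)
        rwa [hy] at this
      have h2 : (lat d).Adj (x + h) (θ (x + f + h)) := by
        have : (lat d).Adj (θ (x + h)) (θ (x + f + h)) :=
          θ.map_adj_iff.2 (adj_iff_unit.2 ⟨f, hf, by abel⟩)
        rwa [hn h hh] at this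
      obtain ⟨u, hu, hu2⟩ := adj_iff_unit.1 h1
      obtain ⟨v, hv, hv2⟩ := adj_iff_unit.1 h2
      have h3 : f + u = h + v := by
        have : x + f + u = x + h + v := hu2 ▸ hv2
        rw [add_assoc, add_assoc] at this
        exact add_left_cancel this
      rcases common hf hh hu hv hne hneg h3 with h4 | h4
      · exfalso
        rw [h4, add_neg_cancel_right] at hu2
        have h5 : θ (x + f + h) = θ x := by rw [hu2, hx]
        have h6 := θ.injective h5
        rw [add_assoc] at h6
        have h7 : f + h = 0 := by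
          have := add_left_cancel (a := x) (b := f + h) (c := 0) (by rw [h6, add_zero])
          exact this
        exact hneg (by rw [eq_neg_iff_add_eq_zero, add_comm]; exact h7)
      · rw [hu2, h4]
  by_cases hne : h = f
  · subst hne
    have h1 : (lat d).Adj (x + h) (θ (x + h + h)) := by
      have : (lat d).Adj (θ (x + h)) (θ (x + h + h)) :=
        θ.map_adj_iff.2 (adj_iff_unit.2 ⟨h, hh, rfl⟩)
      rwa [hy] at this
    obtain ⟨u, hu, hu2⟩ := adj_iff_unit.1 h1
    by_cases h2 : u = h
    · rw [hu2, h2]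
    · exfalso
      have h3 := key u hu h2
      rw [← hu2] at h3
      have h4 := θ.injective h3
      rw [hu2] at h4
      exact h2 (add_left_cancel h4).symm.symm
  · exact key h hh hne

lemma lat_reach (x : Fin d → ℤ) : (lat d).Reachable 0 x := by
  obtain ⟨n, hn⟩ : ∃ n : ℕ, (∑ i, |x i|).toNat = n := ⟨_, rfl⟩
  induction n generalizing x with
  | zero =>
    have h0 : 0 ≤ ∑ i, |x i| := Finset.sum_nonneg fun i _ => abs_nonneg _
    have h1 : ∑ i, |x i| = 0 := by omega
    have h2 : x = 0 := by
      funext i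
      have := (Finset.sum_eq_zero_iff_of_nonneg fun i _ => abs_nonneg _).1 h1 i (Finset.mem_univ i)
      exact abs_eq_zero.1 this
    rw [h2]
  | succ n ih =>
    obtain ⟨i, hi⟩ : ∃ i, x i ≠ 0 := by
      by_contra hcon
      push Not at hcon
      rw [Finset.sum_eq_zero fun i _ => by rw [hcon i]; simp] at hn
      simp at hn
    have hsum : ∀ y : Fin d → ℤ, (∀ j, j ≠ i → y j = x j) → |y i| + 1 = |x i| →
        (∑ j, |y j|).toNat = n := by
      intro y hy hyi
      have e1 := Finset.add_sum_erase Finset.univ (fun j => |x j|) (Finset.mem_univ i)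
      have e2 := Finset.add_sum_erase Finset.univ (fun j => |y j|) (Finset.mem_univ i)
      have e3 : ∑ j ∈ Finset.univ.erase i, |y j| = ∑ j ∈ Finset.univ.erase i, |x j| :=
        Finset.sum_congr rfl fun j hj => by rw [hy j (Finset.ne_of_mem_erase hj)]
      have e4 : 0 ≤ ∑ j, |y j| := Finset.sum_nonneg fun i _ => abs_nonneg _
      beta_reduce at e1 e2
      omega
    rcases lt_or_gt_of_ne hi with h | h
    · refine (ih (x + ev i) (hsum _ (fun j hj => ?_) ?_)).trans (adj_add x i).symm.reachable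
      · rw [Pi.add_apply, ev_ne hj, add_zero]
      · rw [Pi.add_apply, ev_same, abs_of_nonpos (by omega), abs_of_neg h]; omega
    · have h1 : (lat d).Adj (x - ev i) x := by
        have := adj_add (x - ev i) i
        rwa [sub_add_cancel] at this
      refine (ih (x - ev i) (hsum _ (fun j hj => ?_) ?_)).trans h1.reachable
      · rw [Pi.sub_apply, ev_ne hj, sub_zero]
      · rw [Pi.sub_apply, ev_same, abs_of_nonneg (by omega), abs_of_pos h]; omega

/-- An automorphism which fixes the origin and its neighbours is the identity. -/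
lemma rigid (θ : lat d ≃g lat d) (h0 : θ 0 = 0) (hn : ∀ h, IsU h → θ h = h) (x : Fin d → ℤ) :
    θ x = x := by
  have key : ∀ x y : Fin d → ℤ, (lat d).Walk x y → (θ x = x ∧ ∀ h, IsU h → θ (x + h) = x + h) →
      (θ y = y ∧ ∀ h, IsU h → θ (y + h) = y + h) := by
    intro x y q
    induction q with
    | nil => exact fun h => h
    | @cons x z y h q ih =>
      intro hx
      apply ih
      obtain ⟨f, hf, rfl⟩ := adj_iff_unit.1 h
      exact ⟨hx.2 f hf, fun h' hh' => fix_step θ hf hx.1 hx.2 h' hh'⟩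
  obtain ⟨q⟩ := lat_reach x
  exact (key 0 x q ⟨h0, fun h hh => by rw [zero_add]; exact hn h hh⟩).1

/-- The stabiliser of the origin. -/
def Stab (d : ℕ) : Type := {φ : lat d ≃g lat d // φ 0 = 0}

instance stab_finite : Finite (Stab d) := by
  classical
  -- the values on the neighbours of the origin
  let r : Stab d → (Fin d × Bool → Fin d × Bool → Prop) := fun φ a c =>
    φ.1 (if a.2 then ev a.1 else -ev a.1) = if c.2 then ev c.1 else -ev c.1
  refine Finite.of_injective r fun φ ψ h => ?_
  have h1 : ∀ f, IsU f → φ.1 f = ψ.1 f := by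
    intro f hf
    obtain ⟨a, ha⟩ : ∃ a : Fin d × Bool, f = if a.2 then ev a.1 else -ev a.1 := by
      obtain ⟨i, h1 | h1⟩ := hf
      · exact ⟨(i, true), by simpa using h1⟩
      · exact ⟨(i, false), by simpa using h1⟩
    have h2 : IsU (φ.1 f) := by
      have h3 : (lat d).Adj (φ.1 0) (φ.1 f) :=
        φ.1.map_adj_iff.2 (adj_iff_unit.2 ⟨f, hf, by rw [zero_add]⟩)
      rw [φ.2] at h3
      obtain ⟨g, hg, hg2⟩ := adj_iff_unit.1 h3
      rw [zero_add] at hg2
      rw [hg2]; exact hg
    obtain ⟨c, hc⟩ : ∃ c : Fin d × Bool, φ.1 f = if c.2 then ev c.1 else -ev c.1 := by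
      obtain ⟨i, h1 | h1⟩ := h2
      · exact ⟨(i, true), by simpa using h1⟩
      · exact ⟨(i, false), by simpa using h1⟩
    have h3 : r φ a c := by
      show φ.1 _ = _
      rw [← ha]; exact hc
    rw [h] at h3
    have h4 : ψ.1 (if a.2 then ev a.1 else -ev a.1) = if c.2 then ev c.1 else -ev c.1 := h3
    rw [← ha] at h4
    rw [hc, h4]
  have h2 : ∀ x, (ψ.1.symm (φ.1 x)) = x := by
    intro x
    refine rigid (φ.1.trans ψ.1.symm) ?_ ?_ x
    · show ψ.1.symm (φ.1 0) = 0
      rw [φ.2, RelIso.symm_apply_eq]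
      exact ψ.2.symm
    · intro f hf
      show ψ.1.symm (φ.1 f) = f
      rw [h1 f hf, RelIso.symm_apply_apply]
  apply Subtype.ext
  apply RelIso.ext
  intro x
  have := h2 x
  rw [RelIso.symm_apply_eq] at this
  exact this

end Pool.Agent.V11322.FE
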