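import Pool.Agent.V11322.FE.Lat

/-!
# Bond percolations on the lattice: invariance, finite energy, symmetrisation
-/

namespace Pool.Agent.V11322.FE

open MeasureTheory ProbabilityTheory
open scoped NNReal ENNReal

variable {d : ℕ}

/-- Configurations: the open edges have the value `true`. -/
abbrev Cfg (d : ℕ) : Type := (lat d).edgeSet → Bool

/-- The configuration transported by an automorphism. -/
def pull (φ : lat d ≃g lat d) (ω : Cfg d) : Cfg d := fun e => ω (φ.mapEdgeSet e)

/-- The law is invariant under all automorphisms of the lattice. -/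
def Invariant (μ : Measure (Cfg d)) : Prop := ∀ φ : lat d ≃g lat d, μ.map (pull φ) = μ

/-- Finite energy: given the other edges, the edge `e` is open with conditional probability
in `(0, 1)`. -/
def FiniteEnergy (μ : Measure (Cfg d)) : Prop :=
  ∀ e : (lat d).edgeSet, ∀ᵐ ω ∂μ,
    0 < (μ[Set.indicator {ω : Cfg d | ω e = true} (fun _ => (1 : ℝ)) |
      MeasurableSpace.comap (fun (ω : Cfg d) (f : {f // f ≠ e}) => ω f) inferInstance]) ω ∧
    (μ[Set.indicator {ω : Cfg d | ω e = true} (fun _ => (1 : ℝ)) |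
      MeasurableSpace.comap (fun (ω : Cfg d) (f : {f // f ≠ e}) => ω f) inferInstance]) ω < 1

lemma pull_meas (φ : lat d ≃g lat d) : Measurable (pull φ : Cfg d → Cfg d) :=
  measurable_pi_iff.2 fun e => measurable_pi_apply (φ.mapEdgeSet e)

lemma pull_pull (φ ψ : lat d ≃g lat d) (ω : Cfg d) : pull φ (pull ψ ω) = pull (φ.trans ψ) ω := by
  funext e
  unfold pull
  congr 1
  apply Subtype.ext
  show Sym2.map ψ (Sym2.map φ e.1) = Sym2.map (φ.trans ψ) e.1
  rw [Sym2.map_map]
  rfl

/-- The insertion and deletion tolerance. -/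
def Tol (μ : Measure (Cfg d)) : Prop :=
  open Classical in
  ∀ (e : (lat d).edgeSet) (c : Bool) (B : Set (Cfg d)), MeasurableSet B →
    (∀ ω b, ω ∈ B ↔ Function.update ω e b ∈ B) → μ B ≠ 0 → μ (B ∩ {ω | ω e = c}) ≠ 0

lemma meas_val (e : (lat d).edgeSet) (c : Bool) : MeasurableSet {ω : Cfg d | ω e = c} := by
  have h1 : Measurable fun ω : Cfg d => ω e := measurable_pi_apply e
  exact h1 (measurableSet_singleton c)

theorem cond_in {Ω : Type} {m m0 : MeasurableSpace Ω} {μ : Measure Ω} [IsProbabilityMeasure μ]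
    (hm : m ≤ m0) {O : Set Ω} (hO : MeasurableSet O)
    (h1 : ∀ B, MeasurableSet[m] B → μ B ≠ 0 → μ (B ∩ O) ≠ 0)
    (h2 : ∀ B, MeasurableSet[m] B → μ B ≠ 0 → μ (B ∩ Oᶜ) ≠ 0) :
    ∀ᵐ ω ∂μ, 0 < (μ[O.indicator (fun _ => (1 : ℝ)) | m]) ω ∧
      (μ[O.indicator (fun _ => (1 : ℝ)) | m]) ω < 1 := by
  have hfi : Integrable (O.indicator (fun _ => (1 : ℝ))) μ := (integrable_const 1).indicator hO
  obtain ⟨g, hg⟩ : ∃ g, g = μ[O.indicator (fun _ => (1 : ℝ)) | m] := ⟨_, rfl⟩
  have hgm : StronglyMeasurable[m] g := by rw [hg]; exact stronglyMeasurable_condExp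
  have hgi : Integrable g μ := by rw [hg]; exact integrable_condExp
  have hint : ∀ B : Set Ω, MeasurableSet[m] B → ∫ ω in B, g ω ∂μ = μ.real (B ∩ O) := by
    intro B hB
    rw [hg, setIntegral_condExp hm hfi hB, integral_indicator hO, Measure.restrict_restrict hO,
      setIntegral_const, smul_eq_mul, mul_one, Set.inter_comm]
  rw [← hg]
  have hlow : μ {ω | g ω ≤ 0} = 0 := by
    by_contra hne
    have hB : MeasurableSet[m] {ω | g ω ≤ 0} := hgm.measurableSet_le stronglyMeasurable_const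
    have h3 := h1 _ hB hne
    have h4 := hint _ hB
    have h5 : ∫ ω in {ω | g ω ≤ 0}, g ω ∂μ ≤ 0 :=
      setIntegral_nonpos (hm _ hB) fun ω hω => hω
    have h6 : 0 < μ.real ({ω | g ω ≤ 0} ∩ O) := by
      rw [measureReal_def]
      exact ENNReal.toReal_pos h3 (measure_ne_top _ _)
    linarith
  have hup : μ {ω | 1 ≤ g ω} = 0 := by
    by_contra hne
    have hB : MeasurableSet[m] {ω | 1 ≤ g ω} := stronglyMeasurable_const.measurableSet_le hgm
    have h3 := h2 _ hB hne
    have h4 := hint _ hB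
    have h5 : μ.real {ω | 1 ≤ g ω} ≤ ∫ ω in {ω | 1 ≤ g ω}, g ω ∂μ := by
      have h6 : ∫ ω in {ω | 1 ≤ g ω}, (1 : ℝ) ∂μ ≤ ∫ ω in {ω | 1 ≤ g ω}, g ω ∂μ :=
        setIntegral_mono_on (integrable_const 1).integrableOn hgi.integrableOn
          (hm _ hB) fun ω hω => hω
      rwa [setIntegral_const, smul_eq_mul, mul_one] at h6
    have h7 : 0 < μ.real ({ω | 1 ≤ g ω} ∩ Oᶜ) := by
      rw [measureReal_def]
      exact ENNReal.toReal_pos h3 (measure_ne_top _ _)
    have h8 : μ.real ({ω | 1 ≤ g ω} ∩ O) + μ.real ({ω | 1 ≤ g ω} ∩ Oᶜ) =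
        μ.real {ω | 1 ≤ g ω} := by
      rw [← Set.diff_eq]
      exact measureReal_inter_add_sdiff hO
    linarith
  have h3 : ∀ᵐ ω ∂μ, ¬ g ω ≤ 0 := measure_eq_zero_iff_ae_notMem.1 hlow
  have h4 : ∀ᵐ ω ∂μ, ¬ 1 ≤ g ω := measure_eq_zero_iff_ae_notMem.1 hup
  filter_upwards [h3, h4] with ω h5 h6
  exact ⟨not_le.1 h5, not_le.1 h6⟩

theorem Tol.finiteEnergy {μ : Measure (Cfg d)} [IsProbabilityMeasure μ] (h : Tol μ) :
    FiniteEnergy μ := by
  classical
  intro e
  have hmle : MeasurableSpace.comap (fun (ω : Cfg d) (f : {f // f ≠ e}) => ω f) inferInstance ≤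
      (MeasurableSpace.pi : MeasurableSpace (Cfg d)) :=
    (measurable_pi_iff.2 fun f => measurable_pi_apply f.1).comap_le
  -- sets in `m` are invariant
  have hinv : ∀ B : Set (Cfg d), MeasurableSet[MeasurableSpace.comap
      (fun (ω : Cfg d) (f : {f // f ≠ e}) => ω f) inferInstance] B → ∀ ω b,
      ω ∈ B ↔ Function.update ω e b ∈ B := by
    rintro B ⟨A, _, rfl⟩ ω b
    have h1 : (fun (f : {f // f ≠ e}) => Function.update ω e b f.1) = fun f => ω f.1 := by
      funext f
      exact Function.update_of_ne f.2 b ω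
    simp only [Set.mem_preimage]
    rw [h1]
  have hc : {ω : Cfg d | ω e = true}ᶜ = {ω : Cfg d | ω e = false} := by
    ext ω
    simp
  refine cond_in hmle (meas_val e true) (fun B hB hne => ?_) fun B hB hne => ?_
  · exact h e true B (hmle _ hB) (hinv B hB) hne
  · rw [hc]
    exact h e false B (hmle _ hB) (hinv B hB) hne

/-! ### Symmetrisation -/

noncomputable instance : Fintype (Stab d) := Fintype.ofFinite _

instance : Nonempty (Stab d) := ⟨⟨RelIso.refl _, rfl⟩⟩

/-- The average over the stabiliser of the origin. -/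
noncomputable def sym (μ : Measure (Cfg d)) : Measure (Cfg d) :=
  (Fintype.card (Stab d) : ℝ≥0∞)⁻¹ • ∑ h : Stab d, μ.map (pull h.1)

lemma sym_apply (μ : Measure (Cfg d)) {B : Set (Cfg d)} (hB : MeasurableSet B) :
    sym μ B = (Fintype.card (Stab d) : ℝ≥0∞)⁻¹ * ∑ h : Stab d, μ (pull h.1 ⁻¹' B) := by
  unfold sym
  rw [Measure.smul_apply, Measure.finsetSum_apply, smul_eq_mul]
  congr 1
  exact Finset.sum_congr rfl fun h _ => Measure.map_apply (pull_meas _) hB

instance sym_prob (μ : Measure (Cfg d)) [IsProbabilityMeasure μ] :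
    IsProbabilityMeasure (sym μ) := by
  constructor
  rw [sym_apply μ MeasurableSet.univ]
  simp only [Set.preimage_univ, measure_univ, Finset.sum_const, Finset.card_univ, nsmul_eq_mul,
    mul_one]
  refine ENNReal.inv_mul_cancel ?_ (ENNReal.natCast_ne_top _)
  exact_mod_cast Fintype.card_ne_zero

/-- The stabiliser part of `φ` followed by `h`. -/
def part' (φ : lat d ≃g lat d) (h : Stab d) : Stab d :=
  ⟨(φ.trans h.1).trans (trn (-(h.1 (φ 0)))), by
    show h.1 (φ 0) + -(h.1 (φ 0)) = 0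
    exact add_neg_cancel _⟩

lemma part_trans (φ : lat d ≃g lat d) (h : Stab d) :
    (part' φ h).1.trans (trn (h.1 (φ 0))) = φ.trans h.1 := by
  apply RelIso.ext
  intro x
  show h.1 (φ x) + -(h.1 (φ 0)) + h.1 (φ 0) = h.1 (φ x)
  rw [neg_add_cancel_right]

lemma part_injective (φ : lat d ≃g lat d) : Function.Injective (part' φ) := by
  intro h h' he
  have h1 : ∀ x, h.1 (φ x) + -(h.1 (φ 0)) = h'.1 (φ x) + -(h'.1 (φ 0)) := by
    intro x
    have := congrArg (fun s : Stab d => s.1 x) he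
    exact this
  have h2 : ∀ y, h.1 y + -(h.1 (φ 0)) = h'.1 y + -(h'.1 (φ 0)) := by
    intro y
    have := h1 (φ.symm y)
    rwa [RelIso.apply_symm_apply] at this
  have h3 : h.1 (φ 0) = h'.1 (φ 0) := by
    have := h2 0
    rw [h.2, h'.2, zero_add, zero_add, neg_inj] at this
    exact this
  apply Subtype.ext
  apply RelIso.ext
  intro y
  have := h2 y
  rw [h3] at this
  exact add_right_cancel this

theorem sym_invariant {μ : Measure (Cfg d)} (hμ : ∀ v, μ.map (pull (trn v)) = μ) :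
    Invariant (sym μ) := by
  intro φ
  unfold sym
  rw [Measure.map_smul]
  congr 1
  rw [← Measure.mapₗ_apply_of_measurable (pull_meas φ), map_sum]
  simp only [Measure.mapₗ_apply_of_measurable (pull_meas φ)]
  have h1 : ∀ h : Stab d, (μ.map (pull h.1)).map (pull φ) = μ.map (pull (part' φ h).1) := by
    intro h
    rw [Measure.map_map (pull_meas _) (pull_meas _)]
    have h2 : (pull φ ∘ pull h.1 : Cfg d → Cfg d) =
        pull (part' φ h).1 ∘ pull (trn (h.1 (φ 0))) := by
      funext ω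
      show pull φ (pull h.1 ω) = pull (part' φ h).1 (pull (trn (h.1 (φ 0))) ω)
      rw [pull_pull, pull_pull, part_trans]
    rw [h2, ← Measure.map_map (pull_meas _) (pull_meas _), hμ]
  rw [Finset.sum_congr rfl fun h _ => h1 h]
  exact (Function.Injective.bijective_of_finite (part_injective φ)).sum_comp
    fun h => μ.map (pull h.1)

theorem sym_tol {μ : Measure (Cfg d)} (hμ : Tol μ) : Tol (sym μ) := by
  classical
  intro e c B hB hinv hne
  rw [sym_apply μ hB] at hne
  rw [sym_apply μ (hB.inter (meas_val e c))]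
  have h1 : ∃ h : Stab d, μ (pull h.1 ⁻¹' B) ≠ 0 := by
    by_contra hcon
    push Not at hcon
    apply hne
    rw [Finset.sum_eq_zero fun h _ => hcon h, mul_zero]
  obtain ⟨h, hh⟩ := h1
  have h2 := hμ (h.1.mapEdgeSet e) c (pull h.1 ⁻¹' B) (pull_meas _ hB) (fun ω b => by
    rw [Set.mem_preimage, Set.mem_preimage]
    have h3 : pull h.1 (Function.update ω (h.1.mapEdgeSet e) b) =
        Function.update (pull h.1 ω) e b := by
      funext f
      unfold pull
      by_cases hf : f = e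
      · subst hf
        rw [Function.update_self, Function.update_self]
      · rw [Function.update_of_ne (fun h' => hf (h.1.mapEdgeSet.injective h')),
          Function.update_of_ne hf]
    rw [h3]
    exact hinv (pull h.1 ω) b) hh
  have h3 : pull h.1 ⁻¹' (B ∩ {ω | ω e = c}) =
      (pull h.1 ⁻¹' B) ∩ {ω | ω (h.1.mapEdgeSet e) = c} := rfl
  intro h4
  rcases mul_eq_zero.1 h4 with h5 | h5
  · rw [ENNReal.inv_eq_zero] at h5
    exact ENNReal.natCast_ne_top _ h5
  · rw [Finset.sum_eq_zero_iff] at h5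
    have h6 := h5 h (Finset.mem_univ h)
    rw [h3] at h6
    exact h2 h6

lemma sym_ae {μ : Measure (Cfg d)} {P : Cfg d → Prop} (hP : MeasurableSet {ω | P ω})
    (hinv : ∀ (h : lat d ≃g lat d) ω, P ω → P (pull h ω)) (hμ : ∀ᵐ ω ∂μ, P ω) :
    ∀ᵐ ω ∂(sym μ), P ω := by
  rw [ae_iff]
  have h1 : MeasurableSet {ω | ¬ P ω} := hP.compl
  rw [sym_apply μ h1]
  rw [ae_iff] at hμ
  rw [Finset.sum_eq_zero, mul_zero]
  intro h _
  refine measure_mono_null ?_ hμ
  intro ω hω hPω
  exact hω (hinv h.1 ω hPω)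

lemma sym_prod_ae {μ ν : Measure (Cfg d)} [SFinite μ] [SFinite ν]
    (hν : ∀ h : lat d ≃g lat d, ν.map (pull h) = ν)
    {P : Cfg d × Cfg d → Prop} (hP : MeasurableSet {q | P q})
    (hinv : ∀ (h : lat d ≃g lat d) ω η, P (ω, η) → P (pull h ω, pull h η))
    (hμ : ∀ᵐ q ∂(μ.prod ν), P q) : ∀ᵐ q ∂((sym μ).prod ν), P q := by
  have h1 : (sym μ).prod ν = (Fintype.card (Stab d) : ℝ≥0∞)⁻¹ •
      ∑ h : Stab d, (μ.map (pull h.1)).prod ν := by
    unfold sym
    rw [Measure.prod_smul_left, ← Measure.sum_fintype, Measure.prod_sum_left,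
      Measure.sum_fintype]
  rw [h1]
  refine Measure.ae_smul_measure ?_ _
  rw [ae_iff, Measure.finsetSum_apply]
  refine Finset.sum_eq_zero fun h _ => ?_
  rw [← ae_iff (p := P)]
  have h2 : (μ.map (pull h.1)).prod ν = (μ.prod ν).map (Prod.map (pull h.1) (pull h.1)) := by
    conv_lhs => rw [← hν h.1]
    exact (Measure.map_prod_map μ ν (pull_meas h.1) (pull_meas h.1))
  rw [h2, ae_map_iff ((pull_meas h.1).prodMap (pull_meas h.1)).aemeasurable hP]
  filter_upwards [hμ] with q hq
  exact hinv h.1 q.1 q.2 hq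

end Pool.Agent.V11322.FE
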