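import Pool.Agent.V11322.FE.Det

/-!
# The thinned percolation has no infinite cluster; the final theorem
-/

namespace Pool.Agent.V11322.FE

open MeasureTheory ProbabilityTheory Filter
open scoped NNReal ENNReal
open Pool.Agent.V11322.SA (opn opn_adj opn_le perc)

variable {d : ℕ}

section general

variable {I : Type}

lemma reindex (κ : Measure Bool) [IsProbabilityMeasure κ] (σ : I ≃ I) :
    (Measure.infinitePi fun _ : I => κ).map (fun L i => L (σ i)) =
      Measure.infinitePi fun _ : I => κ := by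
  classical
  refine Measure.eq_infinitePi _ fun s t ht => ?_
  have hm : Measurable fun (L : I → Bool) i => L (σ i) :=
    measurable_pi_iff.2 fun i => measurable_pi_apply (σ i)
  rw [Measure.map_apply hm (MeasurableSet.pi s.countable_toSet fun i _ => ht i)]
  have h1 : (fun (L : I → Bool) i => L (σ i)) ⁻¹' Set.pi s t =
      Set.pi (s.map σ.toEmbedding : Finset I) fun i => t (σ.symm i) := by
    ext L
    simp only [Set.mem_preimage, Set.mem_pi, Finset.mem_coe, Finset.mem_map,
      Equiv.coe_toEmbedding, forall_exists_index, and_imp, forall_apply_eq_imp_iff₂,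
      Equiv.symm_apply_apply]
  rw [h1, Measure.infinitePi_pi _ (fun i _ => ht _), Finset.prod_map]
  simp only [Equiv.coe_toEmbedding, Equiv.symm_apply_apply]

end general

lemma perc_pull (p : ℝ≥0) (hp : p ≤ 1) (h : lat d ≃g lat d) :
    (perc (lat d) p hp).map (pull h) = perc (lat d) p hp :=
  reindex _ h.mapEdgeSet

/-- The edges of a finite set are all closed with probability `(1 - p) ^ card`. -/
lemma closed_prob (p : ℝ≥0) (hp : p ≤ 1) (S : Finset (lat d).edgeSet) :
    perc (lat d) p hp {ω | ∀ e ∈ S, ω e = false} = ((1 - p : ℝ≥0) : ℝ≥0∞) ^ S.card := by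
  have h1 : {ω : Cfg d | ∀ e ∈ S, ω e = false} =
      Set.pi (S : Set (lat d).edgeSet) (fun _ => ({false} : Set Bool)) := by
    ext ω
    simp [Set.mem_pi]
  rw [h1]
  unfold perc
  rw [Measure.infinitePi_pi _ (fun _ _ => measurableSet_singleton _)]
  have h2 : (PMF.bernoulli p hp).toMeasure {false} = ((1 - p : ℝ≥0) : ℝ≥0∞) := by
    rw [PMF.toMeasure_apply_singleton _ _ (measurableSet_singleton _)]
    simp [PMF.bernoulli_apply]
  rw [Finset.prod_congr rfl fun _ _ => h2, Finset.prod_const]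

lemma meas_closed (S : Finset (lat d).edgeSet) :
    MeasurableSet {ω : Cfg d | ∀ e ∈ S, ω e = false} := by
  have h1 : {ω : Cfg d | ∀ e ∈ S, ω e = false} = ⋂ e ∈ S, {ω : Cfg d | ω e = false} := by
    ext ω
    simp
  rw [h1]
  exact Finset.measurableSet_biInter _ fun e _ => meas_val e false

/-- Infinitely many of the sets are closed. -/
theorem io_closed (p : ℝ≥0) (hp : p ≤ 1) (hp1 : p < 1) (S : ℕ → Finset (lat d).edgeSet) (M : ℕ)
    (hM : ∀ m, (S m).card ≤ M) (hS : ∀ e, ∀ᶠ m in atTop, e ∉ S m) :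
    ∀ᵐ T ∂(perc (lat d) p hp), ∃ᶠ m in atTop, ∀ e ∈ S m, T e = false := by
  classical
  have h1 : ∀ N, ∃ m, N < m ∧ Disjoint (S m) ((Finset.range (N + 1)).biUnion S) := by
    intro N
    have h2 : ∀ᶠ m in atTop, ∀ e ∈ (Finset.range (N + 1)).biUnion S, e ∉ S m :=
      (Finset.eventually_all _).2 fun e _ => hS e
    obtain ⟨m, hm, hm2⟩ := (h2.and (eventually_gt_atTop N)).exists
    exact ⟨m, hm2, Finset.disjoint_right.2 hm⟩
  choose g hg1 hg2 using h1
  obtain ⟨u, hu⟩ : ∃ u : ℕ → ℕ, ∀ k, u (k + 1) = g (u k) :=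
    ⟨fun k => Nat.rec 0 (fun _ a => g a) k, fun _ => rfl⟩
  have hmono : StrictMono u := strictMono_nat_of_lt_succ fun k => by rw [hu]; exact hg1 _
  have hdisj : ∀ j k, j < k → Disjoint (S (u j)) (S (u k)) := by
    intro j k hjk
    obtain ⟨k, rfl⟩ : ∃ k', k = k' + 1 := ⟨k - 1, by omega⟩
    rw [hu k]
    refine (Finset.disjoint_of_subset_right ?_ (hg2 (u k))).symm
    refine Finset.subset_biUnion_of_mem S (Finset.mem_range.2 ?_)
    have := hmono.monotone (show j ≤ k by omega)
    omega
  set A : ℕ → Set (Cfg d) := fun k => {T | ∀ e ∈ S (u k), T e = false} with hA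
  have hAm : ∀ k, MeasurableSet (A k) := fun k => meas_closed _
  have hind : iIndepSet A (perc (lat d) p hp) := by
    rw [iIndepSet_iff_meas_biInter hAm]
    intro J
    have h2 : (⋂ k ∈ J, A k) = {T : Cfg d | ∀ e ∈ J.biUnion fun k => S (u k), T e = false} := by
      ext T
      simp only [hA, Set.mem_iInter, Set.mem_ofPred_eq, Finset.mem_biUnion]
      constructor
      · rintro h e ⟨k, hk, he⟩
        exact h k hk e he
      · exact fun h k hk e he => h e ⟨k, hk, he⟩
    rw [h2, closed_prob, Finset.card_biUnion, ← Finset.prod_pow_eq_pow_sum]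
    · exact Finset.prod_congr rfl fun k _ => (closed_prob p hp _).symm
    · intro j _ k _ hjk
      rcases lt_or_gt_of_ne hjk with h | h
      · exact hdisj j k h
      · exact (hdisj k j h).symm
  have hsum : ∑' k, perc (lat d) p hp (A k) = ∞ := by
    have h2 : ∀ k, ((1 - p : ℝ≥0) : ℝ≥0∞) ^ M ≤ perc (lat d) p hp (A k) := by
      intro k
      rw [hA]
      simp only
      rw [closed_prob]
      refine pow_le_pow_right_of_le_one' ?_ (hM _)
      exact_mod_cast tsub_le_self
    have h3 : ((1 - p : ℝ≥0) : ℝ≥0∞) ^ M ≠ 0 := by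
      refine pow_ne_zero _ ?_
      rw [ENNReal.coe_ne_zero]
      exact (tsub_pos_of_lt hp1).ne'
    have h4 := ENNReal.tsum_le_tsum h2
    rw [ENNReal.tsum_const_eq_top_of_ne_zero h3] at h4
    exact top_le_iff.1 h4
  have h5 := measure_limsup_eq_one hAm hind hsum
  have h6 : ∀ᵐ T ∂(perc (lat d) p hp), T ∈ limsup A atTop := by
    rw [ae_iff]
    have h7 : MeasurableSet (limsup A atTop) := MeasurableSet.measurableSet_limsup hAm
    have h8 := prob_compl_eq_zero_iff (μ := perc (lat d) p hp) h7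
    exact h8.2 h5
  filter_upwards [h6] with T hT
  rw [mem_limsup_iff_frequently_mem] at hT
  rw [frequently_atTop] at hT ⊢
  intro N
  obtain ⟨k, hk1, hk2⟩ := hT N
  exact ⟨u k, hk1.trans (hmono.id_le k), hk2⟩

/-! ### Measurability -/

/-- There is an infinite cluster. -/
def Inf (ω : Cfg d) : Prop := ∃ C : (opn (lat d) ω).ConnectedComponent, C.supp.Infinite

lemma inf_iff (ω : Cfg d) : Inf ω ↔ ∃ x, {z | (opn (lat d) ω).Reachable x z}.Infinite := by
  have h1 : ∀ x, ((opn (lat d) ω).connectedComponentMk x).supp =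
      {z | (opn (lat d) ω).Reachable x z} := by
    intro x
    ext z
    rw [SimpleGraph.ConnectedComponent.mem_supp_iff, SimpleGraph.ConnectedComponent.eq]
    exact ⟨fun h => h.symm, fun h => h.symm⟩
  constructor
  · rintro ⟨C, hC⟩
    induction C using SimpleGraph.ConnectedComponent.ind with
    | _ x => exact ⟨x, by rw [← h1]; exact hC⟩
  · rintro ⟨x, hx⟩
    exact ⟨(opn (lat d) ω).connectedComponentMk x, by rw [h1]; exact hx⟩

lemma meas_adj (x y : Fin d → ℤ) : MeasurableSet {ω : Cfg d | (opn (lat d) ω).Adj x y} := by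
  by_cases h : (lat d).Adj x y
  · have h1 : {ω : Cfg d | (opn (lat d) ω).Adj x y} = {ω : Cfg d | ω ⟨s(x, y), h⟩ = true} := by
      ext ω
      exact opn_adj h
    rw [h1]
    exact meas_val _ true
  · have h1 : {ω : Cfg d | (opn (lat d) ω).Adj x y} = ∅ := by
      ext ω
      simp only [Set.mem_ofPred_eq, Set.mem_empty_iff_false, iff_false]
      exact fun h2 => h (opn_le ω h2)
    rw [h1]
    exact MeasurableSet.empty

/-- Reachable in `n` steps. -/
def Rn : ℕ → (Fin d → ℤ) → (Fin d → ℤ) → Set (Cfg d)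
  | 0, x, z => {_ω | x = z}
  | n + 1, x, z => ⋃ y, {ω | (opn (lat d) ω).Adj x y} ∩ Rn n y z

lemma meas_Rn (n : ℕ) (x z : Fin d → ℤ) : MeasurableSet (Rn n x z) := by
  induction n generalizing x with
  | zero => exact MeasurableSet.const _
  | succ n ih => exact MeasurableSet.iUnion fun y => (meas_adj x y).inter (ih y)

lemma meas_reach (x z : Fin d → ℤ) :
    MeasurableSet {ω : Cfg d | (opn (lat d) ω).Reachable x z} := by
  have h1 : {ω : Cfg d | (opn (lat d) ω).Reachable x z} = ⋃ n, Rn n x z := by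
    ext ω
    rw [Set.mem_iUnion]
    constructor
    · rintro ⟨q⟩
      induction q with
      | nil => exact ⟨0, rfl⟩
      | @cons x y z h q ih =>
        obtain ⟨n, hn⟩ := ih
        exact ⟨n + 1, Set.mem_iUnion.2 ⟨y, h, hn⟩⟩
    · rintro ⟨n, hn⟩
      induction n generalizing x with
      | zero =>
        have : x = z := hn
        rw [this]
        exact SimpleGraph.Reachable.refl _
      | succ n ih =>
        obtain ⟨y, h1, h2⟩ := Set.mem_iUnion.1 hn
        exact (SimpleGraph.Adj.reachable h1).trans (ih y h2)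
  rw [h1]
  exact MeasurableSet.iUnion fun n => meas_Rn n x z

lemma meas_inf : MeasurableSet {ω : Cfg d | Inf ω} := by
  have h1 : {ω : Cfg d | Inf ω} = ⋃ x : Fin d → ℤ, ⋂ F : Finset (Fin d → ℤ),
      ⋃ z : Fin d → ℤ, ({_ω | z ∉ F} ∩ {ω : Cfg d | (opn (lat d) ω).Reachable x z}) := by
    ext ω
    simp only [Set.mem_ofPred_eq, Set.mem_iUnion, Set.mem_iInter, Set.mem_inter_iff]
    rw [inf_iff]
    refine exists_congr fun x => ?_
    constructor
    · intro h F
      obtain ⟨z, hz1, hz2⟩ := h.exists_notMem_finset F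
      exact ⟨z, hz2, hz1⟩
    · intro h hfin
      obtain ⟨z, hz1, hz2⟩ := h hfin.toFinset
      exact hz1 (by simpa using hz2)
  rw [h1]
  exact MeasurableSet.iUnion fun x => MeasurableSet.iInter fun F =>
    MeasurableSet.iUnion fun z => (MeasurableSet.const _).inter (meas_reach x z)

lemma pull_adj (h : lat d ≃g lat d) (ω : Cfg d) (x y : Fin d → ℤ) :
    (opn (lat d) (pull h ω)).Adj x y ↔ (opn (lat d) ω).Adj (h x) (h y) := by
  by_cases hxy : (lat d).Adj x y
  · rw [opn_adj hxy, opn_adj (h.map_adj_iff.2 hxy)]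
    exact Iff.rfl
  · constructor
    · exact fun h1 => absurd (opn_le _ h1) hxy
    · exact fun h1 => absurd (h.map_adj_iff.1 (opn_le _ h1)) hxy

lemma inf_pull (h : lat d ≃g lat d) (ω : Cfg d) : Inf (pull h ω) ↔ Inf ω := by
  let φ : opn (lat d) (pull h ω) ≃g opn (lat d) ω :=
    { toEquiv := h.toEquiv
      map_rel_iff' := fun {x y} => (pull_adj h ω x y).symm }
  rw [inf_iff, inf_iff]
  have h1 : ∀ x, {z | (opn (lat d) (pull h ω)).Reachable x z} =
      h ⁻¹' {z | (opn (lat d) ω).Reachable (h x) z} := by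
    intro x
    ext z
    exact (φ.reachable_iff (u := x) (v := z)).symm
  have h2 : ∀ x, {z | (opn (lat d) (pull h ω)).Reachable x z}.Infinite ↔
      {z | (opn (lat d) ω).Reachable (h x) z}.Infinite := by
    intro x
    rw [h1, Set.infinite_coe_iff.symm, Set.infinite_coe_iff.symm]
    rw [Set.infinite_coe_iff, Set.infinite_coe_iff]
    constructor
    · intro h3 h4
      exact h3 (h4.preimage h.injective.injOn)
    · intro h3 h4
      apply h3
      have h5 := h4.image h
      rwa [Set.image_preimage_eq _ h.surjective] at h5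
  constructor
  · rintro ⟨x, hx⟩
    exact ⟨h x, (h2 x).1 hx⟩
  · rintro ⟨x, hx⟩
    refine ⟨h.symm x, (h2 _).2 ?_⟩
    rwa [RelIso.apply_symm_apply]

/-! ### The final theorem -/

/-- The configuration of the edges that are open and kept. -/
def thin (q : Cfg d × Cfg d) : Cfg d := fun e => q.1 e && q.2 e

lemma thin_meas : Measurable (thin : Cfg d × Cfg d → Cfg d) := by
  refine measurable_pi_iff.2 fun e => ?_
  have h1 : Measurable fun p : Bool × Bool => p.1 && p.2 := measurable_of_countable _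
  have h2 : Measurable fun q : Cfg d × Cfg d => q.1 e := (measurable_pi_apply e).comp measurable_fst
  have h3 : Measurable fun q : Cfg d × Cfg d => q.2 e := (measurable_pi_apply e).comp measurable_snd
  exact h1.comp (h2.prodMk h3)

theorem mu0_perc [NeZero d] (hd : 2 ≤ d) : ∀ᵐ ω ∂(mu0 d), Inf ω := by
  unfold mu0
  rw [ae_map_iff FF_meas.aemeasurable meas_inf]
  filter_upwards [ae_good d] with L hL
  exact perc_good hd hL

theorem mu0_thin (p : ℝ≥0) (hp : p ≤ 1) (hp1 : p < 1) :
    ∀ᵐ q ∂((mu0 d).prod (perc (lat d) p hp)), ¬ Inf (thin q) := by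
  have hm : MeasurableSet {q : Cfg d × Cfg d | ¬ Inf (thin q)} := (thin_meas meas_inf).compl
  have h1 : (mu0 d).prod (perc (lat d) p hp) =
      ((PP (Ix d)).prod (perc (lat d) p hp)).map (Prod.map FF id) := by
    unfold mu0
    conv_lhs => rw [← Measure.map_id (μ := perc (lat d) p hp)]
    exact Measure.map_prod_map _ _ FF_meas measurable_id
  rw [h1, ae_map_iff (FF_meas.prodMap measurable_id).aemeasurable hm]
  have hm2 : MeasurableSet {q : (Ix d → ℕ) × Cfg d | ¬ Inf (thin (Prod.map FF id q))} :=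
    (FF_meas.prodMap measurable_id) hm
  rw [Measure.ae_prod_iff_ae_ae hm2]
  filter_upwards [ae_good d] with L hL
  have h2 : ∀ x : Fin d → ℤ, ∀ᵐ T ∂(perc (lat d) p hp),
      {z | (opn (lat d) fun e => FF L e && T e).Reachable x z}.Finite := by
    intro x
    obtain ⟨S, hS1, hS2, hS3⟩ := block_thin hL x
    filter_upwards [io_closed p hp hp1 S (2 * d) hS1 hS2] with T hT
    exact hS3 T hT
  filter_upwards [ae_all_iff.2 h2] with T hT
  rw [inf_iff]
  rintro ⟨x, hx⟩
  exact hx (hT x)

theorem final (d : ℕ) (hd : 2 ≤ d) : ∃ μ : Measure (Cfg d), IsProbabilityMeasure μ ∧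
    Invariant μ ∧ FiniteEnergy μ ∧ (∀ᵐ ω ∂μ, Inf ω) ∧
    ∀ (p : ℝ≥0) (hp : p ≤ 1), p < 1 →
      ∀ᵐ q ∂(μ.prod (perc (lat d) p hp)), ¬ Inf (thin q) := by
  have : NeZero d := ⟨by omega⟩
  refine ⟨sym (mu0 d), inferInstance, sym_invariant mu0_trn, (sym_tol mu0_tol).finiteEnergy,
    sym_ae meas_inf (fun h ω => (inf_pull h ω).2) (mu0_perc hd), fun p hp hp1 => ?_⟩
  refine sym_prod_ae (perc_pull p hp) (thin_meas meas_inf).compl (fun h ω η hn hinf => ?_)
    (mu0_thin p hp hp1)
  exact hn ((inf_pull h (thin (ω, η))).1 hinf)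

end Pool.Agent.V11322.FE
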